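import Pool.Agent.H11.GK.Defs

/-!
# Module Aff: the periods are not `4, 3, ..., 3, 4`

Let `D = S.d ≥ 4`, `G = Equiv.Perm (ℕ → ℤ)`. Labels: `g 1`: negate the coordinate `1`; `g i` (`2 ≤ i ≤ D - 1`): exchange the coordinates `i - 1`, `i`
(precomposition with `Equiv.swap`); `g D`: the coordinate `D - 1` is replaced by `1 - ` itself. `S.univ G 1 D Set.univ (fun i _ => g i)` gives `F : X → G` with `F (ρ i x) = F x * g i`:
commutation for `i + 2 ≤ j` (different coordinates), local potentials by `FSys.pot_const` (see `Pool/Agent/H63/KO/Regular.lean` and `String.lean`) because `(g 1 g 2)^4 = 1`,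
`(g i g (i+1))^3 = 1` (`2 ≤ i ≤ D - 2`), `(g (D-1) g D)^4 = 1`. `F '' univ` is finite, nonempty and closed under right multiplication by all `g i`, hence by the subgroup `H` they generate
(`g i` are involutions), so `H` is finite. But `H` contains the negation of the coordinate `D - 1` (conjugate `g 1` by `g 2, ..., g (D-1)`) and its product with `g D` is a translation of this coordinate
by `±1`, of infinite order (apply the `k`-th power to the function `0`).
ALTERNATIVE: `Gram.closed_finite`, `Gram.posdef` (as in `String.lean`) with `N = Fin D`, `B` = path with `-cos(π/4)` at the two ends and `-1/2` in the middle, and the vector `v = (1, √2, ..., √2, 1)`,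
for which `B v = 0`, so `form v v = 0`.
-/

set_option autoImplicit false

namespace Pool.Agent.H11.GK

open H63.KO

/-- negation of the coordinate `j` -/
private def aN (j : ℕ) : Equiv.Perm (ℕ → ℤ) where
  toFun f n := if n = j then - f n else f n
  invFun f n := if n = j then - f n else f n
  left_inv f := by funext n; by_cases h : n = j <;> simp [h]
  right_inv f := by funext n; by_cases h : n = j <;> simp [h]

/-- the coordinate `j` is replaced by `1 -` itself -/
private def aL (j : ℕ) : Equiv.Perm (ℕ → ℤ) where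
  toFun f n := if n = j then 1 - f n else f n
  invFun f n := if n = j then 1 - f n else f n
  left_inv f := by funext n; by_cases h : n = j <;> simp [h]
  right_inv f := by funext n; by_cases h : n = j <;> simp [h]

/-- exchange of the coordinates `j`, `j + 1` -/
private def aS (j : ℕ) : Equiv.Perm (ℕ → ℤ) where
  toFun f n := f (if n = j then j + 1 else if n = j + 1 then j else n)
  invFun f n := f (if n = j then j + 1 else if n = j + 1 then j else n)
  left_inv f := by
    funext n
    show f _ = f n
    congr 1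
    split_ifs <;> omega
  right_inv f := by
    funext n
    show f _ = f n
    congr 1
    split_ifs <;> omega

private theorem aN_apply (j : ℕ) (f : ℕ → ℤ) (n : ℕ) : aN j f n = if n = j then - f n else f n := rfl

private theorem aL_apply (j : ℕ) (f : ℕ → ℤ) (n : ℕ) : aL j f n = if n = j then 1 - f n else f n := rfl

private theorem aS_apply (j : ℕ) (f : ℕ → ℤ) (n : ℕ) :
    aS j f n = f (if n = j then j + 1 else if n = j + 1 then j else n) := rfl

private theorem aN_sq (j : ℕ) : aN j * aN j = 1 := by
  refine Equiv.ext fun f => ?_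
  exact (aN j).left_inv f

private theorem aL_sq (j : ℕ) : aL j * aL j = 1 := by
  refine Equiv.ext fun f => ?_
  exact (aL j).left_inv f

private theorem aS_sq (j : ℕ) : aS j * aS j = 1 := by
  refine Equiv.ext fun f => ?_
  exact (aS j).left_inv f

private theorem aNS (j : ℕ) : (aN j * aS j) ^ 4 = 1 := by
  have h : ∀ (f : ℕ → ℤ) (n : ℕ), (aN j * aS j) f n =
      if n = j then - f (j + 1) else if n = j + 1 then f j else f n := by
    intro f n
    rw [Equiv.Perm.mul_apply, aN_apply, aS_apply]
    split_ifs <;> first | rfl | omega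
  have h2 : ∀ (f : ℕ → ℤ) (n : ℕ), (aN j * aS j) ((aN j * aS j) f) n =
      if n = j then - f n else if n = j + 1 then - f n else f n := by
    intro f n
    rw [h, h, h, h]
    split_ifs <;> first | rfl | omega | (subst_vars; rfl)
  refine Equiv.ext fun f => ?_
  funext n
  have e : (aN j * aS j) ^ 4 = (aN j * aS j) * (aN j * aS j) * ((aN j * aS j) * (aN j * aS j)) := by
    rw [show (4 : ℕ) = 2 + 2 from rfl, pow_add, pow_two]
  rw [e, Equiv.Perm.mul_apply, Equiv.Perm.mul_apply (aN j * aS j) (aN j * aS j), h2,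
    Equiv.Perm.mul_apply (aN j * aS j) (aN j * aS j), h2, Equiv.Perm.one_apply]
  split_ifs <;> simp

private theorem aSL (j : ℕ) : (aS j * aL (j + 1)) ^ 4 = 1 := by
  have h : ∀ (f : ℕ → ℤ) (n : ℕ), (aS j * aL (j + 1)) f n =
      if n = j then 1 - f (j + 1) else if n = j + 1 then f j else f n := by
    intro f n
    rw [Equiv.Perm.mul_apply, aS_apply, aL_apply]
    split_ifs <;> first | rfl | omega
  have h2 : ∀ (f : ℕ → ℤ) (n : ℕ), (aS j * aL (j + 1)) ((aS j * aL (j + 1)) f) n =
      if n = j then 1 - f n else if n = j + 1 then 1 - f n else f n := by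
    intro f n
    rw [h, h, h, h]
    split_ifs <;> first | rfl | omega | (subst_vars; rfl)
  refine Equiv.ext fun f => ?_
  funext n
  have e : (aS j * aL (j + 1)) ^ 4 = (aS j * aL (j + 1)) * (aS j * aL (j + 1)) *
      ((aS j * aL (j + 1)) * (aS j * aL (j + 1))) := by
    rw [show (4 : ℕ) = 2 + 2 from rfl, pow_add, pow_two]
  rw [e, Equiv.Perm.mul_apply, Equiv.Perm.mul_apply (aS j * aL (j + 1)) (aS j * aL (j + 1)), h2,
    Equiv.Perm.mul_apply (aS j * aL (j + 1)) (aS j * aL (j + 1)), h2, Equiv.Perm.one_apply]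
  split_ifs <;> simp

private theorem aSS (j : ℕ) : (aS j * aS (j + 1)) ^ 3 = 1 := by
  have h : ∀ (f : ℕ → ℤ) (n : ℕ), (aS j * aS (j + 1)) f n =
      f (if n = j then j + 2 else if n = j + 1 then j else if n = j + 2 then j + 1 else n) := by
    intro f n
    rw [Equiv.Perm.mul_apply, aS_apply, aS_apply]
    congr 1
    split_ifs <;> omega
  refine Equiv.ext fun f => ?_
  funext n
  have e : (aS j * aS (j + 1)) ^ 3 = (aS j * aS (j + 1)) * ((aS j * aS (j + 1)) *
      (aS j * aS (j + 1))) := by
    rw [show (3 : ℕ) = 2 + 1 from rfl, pow_succ', pow_two]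
  rw [e, Equiv.Perm.mul_apply, h, Equiv.Perm.mul_apply, h, h, Equiv.Perm.one_apply]
  congr 1
  split_ifs <;> omega

private theorem aNS_comm {i j : ℕ} (h : i < j) : aN i * aS j = aS j * aN i := by
  refine Equiv.ext fun f => ?_
  funext n
  rw [Equiv.Perm.mul_apply, Equiv.Perm.mul_apply, aN_apply, aS_apply, aS_apply, aN_apply]
  split_ifs <;> first | rfl | omega

private theorem aNL_comm {i j : ℕ} (h : i ≠ j) : aN i * aL j = aL j * aN i := by
  refine Equiv.ext fun f => ?_
  funext n
  rw [Equiv.Perm.mul_apply, Equiv.Perm.mul_apply, aN_apply, aL_apply, aL_apply, aN_apply]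
  split_ifs <;> first | rfl | omega

private theorem aSS_comm {i j : ℕ} (h : i + 1 < j) : aS i * aS j = aS j * aS i := by
  refine Equiv.ext fun f => ?_
  funext n
  rw [Equiv.Perm.mul_apply, Equiv.Perm.mul_apply, aS_apply, aS_apply, aS_apply, aS_apply]
  congr 1
  split_ifs <;> omega

private theorem aSL_comm {i j : ℕ} (h : i + 1 < j) : aS i * aL j = aL j * aS i := by
  refine Equiv.ext fun f => ?_
  funext n
  rw [Equiv.Perm.mul_apply, Equiv.Perm.mul_apply, aS_apply, aL_apply, aL_apply, aS_apply]
  split_ifs <;> first | rfl | omega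

private theorem aN_succ (j : ℕ) : aN (j + 1) = aS j * aN j * aS j := by
  refine Equiv.ext fun f => ?_
  funext n
  rw [Equiv.Perm.mul_apply, Equiv.Perm.mul_apply, aN_apply, aS_apply, aN_apply, aS_apply]
  split_ifs <;> first | rfl | omega | (subst_vars; rfl)

/-- the product of the two affine involutions is a translation -/
private theorem aLN_pow (j k : ℕ) : ((aL j * aN j) ^ k) (fun _ => 0) j = k := by
  induction k with
  | zero => rfl
  | succ k ih =>
    rw [pow_succ', Equiv.Perm.mul_apply, Equiv.Perm.mul_apply, aL_apply, aN_apply, if_pos rfl,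
      if_pos rfl, ih]
    push_cast
    ring

theorem no_both_four {X : Type} [Finite X] [Nonempty X] (S : FSys X) (hd : 4 ≤ S.d) (h1 : ∀ x, S.per 1 x = 4)
    (h2 : ∀ i, 2 ≤ i → i + 2 ≤ S.d → ∀ x, S.per i x = 3) (h3 : ∀ x, S.per (S.d - 1) x = 4) : False := by
  classical
  obtain ⟨D, hD⟩ : ∃ D, S.d = D + 2 := ⟨S.d - 2, by omega⟩
  obtain ⟨x0⟩ := ‹Nonempty X›
  obtain ⟨g, hg⟩ : ∃ g : ℕ → Equiv.Perm (ℕ → ℤ), g = fun i => if i = 1 then aN 1 else
    if i = D + 2 then aL (D + 1) else aS (i - 1) := ⟨_, rfl⟩
  have g1 : g 1 = aN 1 := by rw [hg]; simp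
  have gD : g (D + 2) = aL (D + 1) := by
    rw [hg]
    show (if D + 2 = 1 then aN 1 else if D + 2 = D + 2 then aL (D + 1) else aS (D + 2 - 1)) = _
    rw [if_neg (by omega), if_pos rfl]
  have gm : ∀ i, 1 ≤ i → i ≤ D → g (i + 1) = aS i := by
    intro i hi hi'
    rw [hg]
    show (if i + 1 = 1 then aN 1 else if i + 1 = D + 2 then aL (D + 1) else aS (i + 1 - 1)) = _
    rw [if_neg (by omega), if_neg (by omega), Nat.add_sub_cancel]
  obtain ⟨F, hF⟩ := S.univ (Equiv.Perm (ℕ → ℤ)) 1 S.d Set.univ (fun i _ => g i) le_rfl (by omega) le_rfl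
    (fun _ _ _ _ _ => Set.mem_univ _)
    (fun i j hi hij hj z _ => by
      show g i * g j = g j * g i
      rcases Nat.eq_or_lt_of_le hi with h | h
      · rw [← h, g1]
        rcases Nat.eq_or_lt_of_le hj with h' | h'
        · rw [h', hD, gD]
          exact aNL_comm (by omega)
        · obtain ⟨j', rfl⟩ : ∃ j', j = j' + 1 := ⟨j - 1, by omega⟩
          rw [gm j' (by omega) (by omega)]
          exact aNS_comm (by omega)
      · obtain ⟨i', rfl⟩ : ∃ i', i = i' + 1 := ⟨i - 1, by omega⟩
        rw [gm i' (by omega) (by omega)]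
        rcases Nat.eq_or_lt_of_le hj with h' | h'
        · rw [h', hD, gD]
          exact aSL_comm (by omega)
        · obtain ⟨j', rfl⟩ : ∃ j', j = j' + 1 := ⟨j - 1, by omega⟩
          rw [gm j' (by omega) (by omega)]
          exact aSS_comm (by omega))
    (fun i hi hi1 => by
      have key : g i * g i = 1 ∧ g (i + 1) * g (i + 1) = 1 ∧ ∀ x, (g i * g (i + 1)) ^ S.per i x = 1 := by
        rcases Nat.eq_or_lt_of_le hi with h | h
        · rw [← h, g1, gm 1 le_rfl (by omega)]
          refine ⟨aN_sq 1, aS_sq 1, fun x => ?_⟩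
          rw [h1]
          exact aNS 1
        · obtain ⟨i', rfl⟩ : ∃ i', i = i' + 1 := ⟨i - 1, by omega⟩
          rw [gm i' (by omega) (by omega)]
          rcases Nat.eq_or_lt_of_le hi1 with h' | h'
          · have e : i' = D := by omega
            subst e
            rw [gD]
            refine ⟨aS_sq _, aL_sq _, fun x => ?_⟩
            have h4 := h3 x
            rw [hD] at h4
            have e2 : i' + 2 - 1 = i' + 1 := by omega
            rw [e2] at h4
            rw [h4]
            exact aSL i'
          · rw [gm (i' + 1) (by omega) (by omega)]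
            refine ⟨aS_sq _, aS_sq _, fun x => ?_⟩
            rw [h2 (i' + 1) (by omega) (by omega) x]
            exact aSS i'
      exact S.pot_const hi hi1 Set.univ (fun _ _ => Set.mem_univ _) (fun _ _ => Set.mem_univ _)
        (fun _ => g i) (fun _ => g (i + 1)) (g i) (g (i + 1)) key.1 key.2.1
        (fun _ _ => rfl) (fun _ _ => rfl) (fun z _ => key.2.2 z))
  -- the elements which map the finite set of the values into itself
  have hmul : ∀ a b : Equiv.Perm (ℕ → ℤ), (∀ x, ∃ y, F x * a = F y) → (∀ x, ∃ y, F x * b = F y) →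
      ∀ x, ∃ y, F x * (a * b) = F y := by
    intro a b ha hb x
    obtain ⟨y, hy⟩ := ha x
    obtain ⟨z, hz⟩ := hb y
    exact ⟨z, by rw [← mul_assoc, hy, hz]⟩
  have hgen : ∀ i, 1 ≤ i → i ≤ D + 2 → ∀ x, ∃ y, F x * g i = F y := by
    intro i hi hi' x
    exact ⟨S.ρ i x, (hF i hi (by omega) x (Set.mem_univ _)).symm⟩
  have hN : ∀ j, j ≤ D → ∀ x, ∃ y, F x * aN (j + 1) = F y := by
    intro j
    induction j with
    | zero =>
      intro _
      have := hgen 1 le_rfl (by omega)
      rwa [g1] at this
    | succ j ih =>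
      intro hj
      have hs := hgen (j + 1 + 1) (by omega) (by omega)
      rw [gm (j + 1) (by omega) (by omega)] at hs
      rw [aN_succ (j + 1)]
      exact hmul _ _ (hmul _ _ hs (ih (by omega))) hs
  have hL := hgen (D + 2) (by omega) le_rfl
  rw [gD] at hL
  have ht := hmul _ _ hL (hN D le_rfl)
  have hpow : ∀ k : ℕ, ∀ x, ∃ y, F x * (aL (D + 1) * aN (D + 1)) ^ k = F y := by
    intro k
    induction k with
    | zero => exact fun x => ⟨x, by rw [pow_zero, mul_one]⟩
    | succ k ih =>
      rw [pow_succ]
      exact hmul _ _ ih ht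
  choose y hy using fun k => hpow k x0
  have hinj : Function.Injective y := by
    intro k k' h
    have h4 : F x0 * (aL (D + 1) * aN (D + 1)) ^ k = F x0 * (aL (D + 1) * aN (D + 1)) ^ k' := by
      rw [hy, hy, h]
    have h5 := mul_left_cancel h4
    have h6 := aLN_pow (D + 1) k
    rw [h5, aLN_pow] at h6
    exact_mod_cast h6.symm
  exact not_injective_infinite_finite y hinj

end Pool.Agent.H11.GK
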