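import Pool.Agent.H11.GK.VertX

/-!
# Module Ctr: the centre

`c` = the average of the vertices `v A`, `P.rk A = 1` (a nonempty finite set, `exists_atom` for `P.top`; the rank of `P.top` is `P.d + 1 ≥ 1`).
* `Sym`: an isometry `g` of the space is affine (`IsometryEquiv.toRealAffineIsometryEquiv`, Mazur-Ulam): `g x - g y = L (x - y)` with `L` its linear part. If `g '' Q = Q` and `φ` is the induced automorphism then `g (v A) = v (φ A)` for the atoms
  (`{v (φ A)} = φ A = g '' {v A}`), and `φ` permutes the atoms (`rk_auto`), so `g c = c` (an affine map respects averages; or: `∑ (v A - c) = 0`, so `∑ (g (v A) - g c) = L 0 = 0`, so `g c` is the average of the `g (v A)`). So `g x = c + L (x - c)`.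
* `ctr_int`: `c ∈ interior Q`: otherwise `c` is in a face `F ≠ Q` (`bdry`); `F` is exposed by some `l`, all vertices have `l (v A) ≤ l c` and the average is `l c`, so all are equal, so all vertices are in `F`, `Q = conv ⊆ F` (`face_hull` for `P.top`, `top_eq`).
-/

set_option autoImplicit false

namespace Pool.Agent.H11.GK

open H63.KO KOrbit

variable {d : ℕ} {Q : Set (Euc d)}

private theorem ctr_vert (hQ : IsPolytope Q) (P : PolyLat (Face Q)) :
    ∃ v : Face Q → Euc d, ∀ A, P.rk A = 1 → (A : Set (Euc d)) = {v A} := by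
  classical
  refine ⟨fun A => if h : P.rk A = 1 then (atom_point hQ P h).choose else 0, fun A hA => ?_⟩
  simp only [dif_pos hA]
  exact (atom_point hQ P hA).choose_spec

theorem exists_ctr [Finite (Face Q)] (hQ : IsPolytope Q) (P : PolyLat (Face Q)) : ∃ c : Euc d, c ∈ interior Q ∧
    ∀ φ ∈ Gm Q, ∃ L : Euc d ≃ₗᵢ[ℝ] Euc d, ∀ F : Face Q, ∀ x : Euc d, x ∈ (F : Set (Euc d)) ↔ c + L (x - c) ∈ ((φ F : Face Q) : Set (Euc d)) := by
  classical
  obtain ⟨v, hv⟩ := ctr_vert hQ P
  have hmem : ∀ A, P.rk A = 1 → v A ∈ (A : Set (Euc d)) := by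
    intro A hA
    rw [hv A hA]
    rfl
  have : Fintype {A : Face Q // P.rk A = 1} := Fintype.ofFinite _
  have hne : Nonempty {A : Face Q // P.rk A = 1} := by
    obtain ⟨A, _, hA⟩ := H73.TO.exists_atom P (x := P.top) (by rw [P.rk_top]; omega)
    exact ⟨⟨A, hA⟩⟩
  obtain ⟨N, hN⟩ : ∃ N : ℝ, N = (Fintype.card {A : Face Q // P.rk A = 1} : ℝ) := ⟨_, rfl⟩
  have hN0 : 0 < N := by
    rw [hN]
    exact_mod_cast Fintype.card_pos
  obtain ⟨c, hc⟩ : ∃ c : Euc d, c = ∑ A : {A : Face Q // P.rk A = 1}, (1 / N) • v A.1 := ⟨_, rfl⟩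
  have hNc : N • c = ∑ A : {A : Face Q // P.rk A = 1}, v A.1 := by
    rw [hc, ← Finset.smul_sum, smul_smul, mul_one_div_cancel hN0.ne', one_smul]
  have hvQ : ∀ A, P.rk A = 1 → v A ∈ Q := by
    intro A hA
    have := le_iff.1 (P.le_top A) (hmem A hA)
    rwa [top_eq P] at this
  have hcQ : c ∈ Q := by
    have hconv : Convex ℝ Q := by
      have := (face_compact hQ P.top).2
      rwa [top_eq P] at this
    rw [hc]
    refine hconv.sum_mem (fun _ _ => by positivity) ?_ fun A _ => hvQ A.1 A.2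
    rw [Finset.sum_const, Finset.card_univ, nsmul_eq_mul, ← hN, mul_one_div_cancel hN0.ne']
  refine ⟨c, ?_, ?_⟩
  · by_contra hcon
    obtain ⟨F, hcF, hFQ⟩ := bdry hQ hcQ hcon
    obtain ⟨l, hl⟩ := F.2 ⟨c, hcF⟩
    have hc2 : c ∈ {x | x ∈ Q ∧ ∀ y ∈ Q, l y ≤ l x} := by
      rw [hl] at hcF
      exact hcF
    have hlc : N * l c = ∑ A : {A : Face Q // P.rk A = 1}, l (v A.1) := by
      have := congrArg l hNc
      rw [map_smul, map_sum, smul_eq_mul] at this
      exact this
    have hsum : ∑ A : {A : Face Q // P.rk A = 1}, (l c - l (v A.1)) = 0 := by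
      rw [Finset.sum_sub_distrib, ← hlc, Finset.sum_const, Finset.card_univ, nsmul_eq_mul, ← hN]
      ring
    have hall := (Finset.sum_eq_zero_iff_of_nonneg (fun A _ => by
      have := hc2.2 (v A.1) (hvQ A.1 A.2)
      linarith)).1 hsum
    have hvF : ∀ A, P.rk A = 1 → v A ∈ (F : Set (Euc d)) := by
      intro A hA
      have h1 := hall ⟨A, hA⟩ (Finset.mem_univ _)
      rw [hl]
      refine ⟨hvQ A hA, fun y hy => ?_⟩
      have h2 := hc2.2 y hy
      simp only at h1
      linarith
    apply hFQ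
    refine Set.Subset.antisymm ?_ ?_
    · have := le_iff.1 (P.le_top F)
      rwa [top_eq P] at this
    · have h1 := face_hull hQ P hv P.top
      rw [top_eq P] at h1
      refine h1.le.trans (convexHull_min ?_ (face_compact hQ F).2)
      rintro _ ⟨A, ⟨hA1, _⟩, rfl⟩
      exact hvF A hA1
  · rintro φ ⟨g, hg, hφ⟩
    obtain ⟨f, hf⟩ : ∃ f : Euc d ≃ᵃⁱ[ℝ] Euc d, f = g.toRealAffineIsometryEquiv := ⟨_, rfl⟩
    have hfg : ∀ x, f x = g x := by
      intro x
      rw [hf]
      rfl
    have hgx : ∀ x, g x = f.linearIsometryEquiv (x - c) + g c := by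
      intro x
      have h1 := f.map_vadd c (x - c)
      rw [vadd_eq_add, vadd_eq_add, sub_add_cancel, hfg, hfg] at h1
      exact h1
    have hgv : ∀ A, P.rk A = 1 → g (v A) = v (φ A) := by
      intro A hA
      have h1 := hφ A
      rw [hv A hA, hv (φ A) (by rw [rk_auto (P := P)]; exact hA), Set.image_singleton] at h1
      exact (Set.singleton_eq_singleton_iff.1 h1).symm
    have hsum : ∑ A : {A : Face Q // P.rk A = 1}, v (φ A.1) = ∑ A : {A : Face Q // P.rk A = 1}, v A.1 := by
      let e : {A : Face Q // P.rk A = 1} ≃ {A : Face Q // P.rk A = 1} :=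
        φ.toEquiv.subtypeEquiv fun A => by
          change P.rk A = 1 ↔ P.rk (φ A) = 1
          rw [rk_auto (P := P)]
      exact Equiv.sum_comp e fun A => v A.1
    have hgc : g c = c := by
      have h1 : ∑ A : {A : Face Q // P.rk A = 1}, g (v A.1) = N • g c := by
        have h2 : ∀ A : {A : Face Q // P.rk A = 1}, g (v A.1) = f.linearIsometryEquiv (v A.1 - c) + g c :=
          fun A => hgx _
        rw [Finset.sum_congr rfl fun A _ => h2 A, Finset.sum_add_distrib, ← map_sum, Finset.sum_sub_distrib,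
          ← hNc, Finset.sum_const, Finset.card_univ, Finset.sum_const, Finset.card_univ,
          ← Nat.cast_smul_eq_nsmul ℝ, ← Nat.cast_smul_eq_nsmul ℝ, ← hN, sub_self, map_zero, zero_add]
      have h3 : ∑ A : {A : Face Q // P.rk A = 1}, g (v A.1) = N • c := by
        rw [hNc, ← hsum]
        exact Finset.sum_congr rfl fun A _ => hgv A.1 A.2
      rw [h3] at h1
      exact (smul_right_injective _ hN0.ne' h1).symm
    refine ⟨f.linearIsometryEquiv, fun F x => ?_⟩
    have h1 : c + f.linearIsometryEquiv (x - c) = g x := by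
      rw [hgx x, hgc, add_comm]
    rw [h1, hφ F]
    exact (g.injective.mem_set_image).symm

/-- an isometry of the form `x ↦ c + L (x - c)` which maps every face `F` onto `φ F` -/
theorem mem_Gm (P : PolyLat (Face Q)) (c : Euc d) (L : Euc d ≃ₗᵢ[ℝ] Euc d) (φ : Face Q ≃o Face Q)
    (h : ∀ F : Face Q, ∀ x : Euc d, x ∈ (F : Set (Euc d)) ↔ c + L (x - c) ∈ ((φ F : Face Q) : Set (Euc d))) : φ ∈ Gm Q := by
  obtain ⟨g, hg⟩ : ∃ g : Euc d ≃ᵢ Euc d, ∀ x, g x = c + L (x - c) :=
    ⟨((IsometryEquiv.subRight c).trans L.toIsometryEquiv).trans (IsometryEquiv.addLeft c), fun x => rfl⟩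
  have him : ∀ F : Face Q, ((φ F : Face Q) : Set (Euc d)) = g '' (F : Set (Euc d)) := by
    intro F
    ext y
    constructor
    · intro hy
      refine ⟨g.symm y, (h F _).2 ?_, g.apply_symm_apply y⟩
      rw [← hg, g.apply_symm_apply]
      exact hy
    · rintro ⟨x, hx, rfl⟩
      rw [hg]
      exact (h F x).1 hx
  refine ⟨g, ?_, him⟩
  have h1 : φ P.top = P.top := by
    refine le_antisymm (P.le_top _) ?_
    have h2 := φ.monotone (P.le_top (φ.symm P.top))
    rwa [φ.apply_symm_apply] at h2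
  have h3 := him P.top
  rw [h1, top_eq P] at h3
  exact h3.symm

end Pool.Agent.H11.GK
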