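import Pool.Agent.H11.GK.Defs

/-!
# Module DecA: double cosets in type A

`Hm q (m+1)` is generated by `q 0, ..., q m`. CLAIM (induction on `m`): every `g ∈ Hm q (m+1)` is in `Hm q m` or `= a q_m b`, `a, b ∈ Hm q m`.
`m = 0`: `Hm q 0 = ⊥`, `Hm q 1 = {1, q 0}`. Step: let `Y` be the set of all elements of these two forms. `1 ∈ Y`, and `Y` is closed under multiplication
from the left by `q i`, `i ≤ m` (then `Subgroup.closure_induction_left`, the generators are their own inverses): clear for `i < m`. For `i = m`: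
`g ∈ Hm q m`: `q_m g = 1 q_m g`. `g = a q_m b`: by induction `a ∈ Hm q (m-1)` (commutes with `q m`: `q_m a q_m b = a b ∈ Hm q m`) or `a = c q_(m-1) d` with
`c, d ∈ Hm q (m-1)`: `q_m c q_(m-1) d q_m b = c (q_m q_(m-1) q_m) d b = (c q_(m-1)) q_m (q_(m-1) d b)`.
`Hm_comm`: `q m` commutes with the generators of `Hm q (m-1)` (`Subgroup.closure_le`, centralizer, or closure induction). Write `m - 1` as a variable: `Hm_comm` is stated for
`g ∈ Hm q m` and `q (m+1)`.
-/

set_option autoImplicit false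

namespace Pool.Agent.H11.GK

variable {G : Type} [Group G] {q : ℕ → G} {a n : ℕ}

theorem Hm_mono (q : ℕ → G) {m m' : ℕ} (h : m ≤ m') : Hm q m ≤ Hm q m' :=
  Subgroup.closure_mono (Set.image_mono fun _ hi => lt_of_lt_of_le hi h)

theorem mem_Hm (q : ℕ → G) {i m : ℕ} (h : i < m) : q i ∈ Hm q m :=
  Subgroup.subset_closure ⟨i, h, rfl⟩

theorem Hm_zero (q : ℕ → G) {g : G} (h : g ∈ Hm q 0) : g = 1 := by
  have h0 : Hm q 0 = ⊥ := by
    unfold Hm
    have he : {i : ℕ | i < 0} = ∅ := by
      ext i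
      simp
    rw [he, Set.image_empty, Subgroup.closure_empty]
  rw [h0] at h
  exact Subgroup.mem_bot.1 h

/-- induction on the elements of `Hm q m` -/
theorem Hm_ind (h : Cox q a n) {m : ℕ} (Y : G → Prop) (h1 : Y 1) (hY : ∀ i < m, ∀ g ∈ Hm q m, Y g → Y (q i * g)) {g : G}
    (hg : g ∈ Hm q m) : Y g := by
  refine Subgroup.closure_induction_left (p := fun x _ => Y x) h1 ?_ ?_ hg
  · rintro x ⟨i, hi, rfl⟩ y hy hYy
    exact hY i hi y hy hYy
  · rintro x ⟨i, hi, rfl⟩ y hy hYy
    have hinv : (q i)⁻¹ = q i := inv_eq_of_mul_eq_one_left (h.inv i)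
    rw [hinv]
    exact hY i hi y hy hYy

theorem Hm_comm (h : Cox q a n) {m i : ℕ} (hi : m + 1 ≤ i) {g : G} (hg : g ∈ Hm q m) : q i * g = g * q i := by
  refine Hm_ind h (fun g => q i * g = g * q i) (by simp) ?_ hg
  intro j hj g _ ih
  show q i * (q j * g) = q j * g * q i
  rw [← mul_assoc, ← h.comm j i (by omega), mul_assoc, ih, mul_assoc]

theorem decA (h : Cox q 0 n) {m : ℕ} (hm : m ≤ n) {g : G} (hg : g ∈ Hm q (m + 1)) :
    g ∈ Hm q m ∨ ∃ b ∈ Hm q m, ∃ c ∈ Hm q m, g = b * q m * c := by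
  induction m generalizing g with
  | zero =>
    refine Hm_ind h (fun g => g ∈ Hm q 0 ∨ ∃ b ∈ Hm q 0, ∃ c ∈ Hm q 0, g = b * q 0 * c) (Or.inl (one_mem _)) ?_ hg
    intro i hi g _ ih
    obtain rfl : i = 0 := by omega
    rcases ih with h1 | ⟨b, hb, c, hc, rfl⟩
    · exact Or.inr ⟨1, one_mem _, g, h1, by simp⟩
    · left
      rw [Hm_zero q hb, one_mul, ← mul_assoc, h.inv, one_mul]
      exact hc
  | succ m ih =>
    refine Hm_ind h (fun g => g ∈ Hm q (m + 1) ∨ ∃ b ∈ Hm q (m + 1), ∃ c ∈ Hm q (m + 1), g = b * q (m + 1) * c)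
      (Or.inl (one_mem _)) ?_ hg
    intro i hi g _ hY
    rcases Nat.lt_or_ge i (m + 1) with hi' | hi'
    · have hqi := mem_Hm q hi'
      rcases hY with h1 | ⟨b, hb, c, hc, rfl⟩
      · exact Or.inl (mul_mem hqi h1)
      · exact Or.inr ⟨q i * b, mul_mem hqi hb, c, hc, by simp [mul_assoc]⟩
    · obtain rfl : i = m + 1 := by omega
      rcases hY with h1 | ⟨b, hb, c, hc, rfl⟩
      · exact Or.inr ⟨1, one_mem _, g, h1, by simp⟩
      · rcases ih (by omega) hb with hb' | ⟨e, he, f, hf, rfl⟩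
        · left
          have hc1 := Hm_comm h (le_refl (m + 1)) hb'
          have heq : q (m + 1) * (b * q (m + 1) * c) = b * c := by
            calc q (m + 1) * (b * q (m + 1) * c) = (q (m + 1) * b) * q (m + 1) * c := by simp only [mul_assoc]
              _ = b * (q (m + 1) * q (m + 1)) * c := by rw [hc1]; simp only [mul_assoc]
              _ = b * c := by rw [h.inv, mul_one]
          rw [heq]
          exact mul_mem hb hc
        · right
          have hqm : q m ∈ Hm q (m + 1) := mem_Hm q (Nat.lt_succ_self m)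
          have hmono : Hm q m ≤ Hm q (m + 1) := Hm_mono q (Nat.le_succ m)
          refine ⟨e * q m, mul_mem (hmono he) hqm, q m * f * c, mul_mem (mul_mem hqm (hmono hf)) hc, ?_⟩
          have he' := Hm_comm h (le_refl (m + 1)) he
          have hf' := Hm_comm h (le_refl (m + 1)) hf
          have hbr := h.braid m (Nat.zero_le _) hm
          calc q (m + 1) * (e * q m * f * q (m + 1) * c)
              = (q (m + 1) * e) * q m * (f * q (m + 1)) * c := by simp only [mul_assoc]
            _ = e * (q (m + 1) * q m * q (m + 1)) * f * c := by rw [he', ← hf']; simp only [mul_assoc]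
            _ = e * (q m * q (m + 1) * q m) * f * c := by rw [← hbr]
            _ = e * q m * q (m + 1) * (q m * f * c) := by simp only [mul_assoc]

end Pool.Agent.H11.GK
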