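import Pool.Agent.H11.GK.DecA

/-!
# Module DecB: double cosets in type B

`t_m = tm q m = q_m ... q_1 q_0 q_1 ... q_m`, `t_(m+1) = q_(m+1) t_m q_(m+1)`, `t_m² = 1`, `t_m ∈ Hm q (m+1)`.
`tm_comm`: `t_m` commutes with `Hm q m`, i.e. with `q i`, `i < m`. Induction on `m`. `i + 1 < m`: `t_m = q_m t_(m-1) q_m`, `q i` commutes with `q m` and `t_(m-1)`.
`i = m - 1 ≥ 1`: `t_m = q_m q_(m-1) t_(m-2) q_(m-1) q_m`, and `q_(m-1) q_m q_(m-1) t_(m-2) q_(m-1) q_m = q_m q_(m-1) q_m t_(m-2) q_(m-1) q_m = q_m q_(m-1) t_(m-2) q_m q_(m-1) q_m =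
q_m q_(m-1) t_(m-2) q_(m-1) q_m q_(m-1)` (`q m` commutes with `t_(m-2) ∈ Hm q (m-1)`, `Hm_comm`). `i = 0`, `m = 1`: `q_0 q_1 q_0 q_1 = q_1 q_0 q_1 q_0`.
`decB`: `Y` = the set of elements of the three forms (0) `g ∈ Hm q m`, (1) `g = b q_m c`, (2) `g = b t_m`, `b, c ∈ Hm q m`. As in `decA` it is enough that `Y` is closed under `q_m *`
(`q_i *` for `i < m` is clear). Put `H = Hm q m`, `H' = Hm q (m-1)` (for `m = 0`: `g = 1` or `g = q 0`). Form (0): `q_m g`. Form (1), `g = b q_m c`, decompose `b ∈ H` by induction: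
`b ∈ H'`: `q_m b q_m c = b c`; `b = b' q_(m-1) b''`: `q_m b' q_(m-1) b'' q_m c = (b' q_(m-1)) q_m (q_(m-1) b'' c)` (braid; `m ≥ 2`. For `m = 1` `b' = b'' = 1` and `b = q_0 = t_0` is treated as the third case);
`b = b' t_(m-1)`: `q_m b' t_(m-1) q_m c = b' t_m c = b' c t_m`, form (2). Form (2), `g = b t_m`: `b ∈ H'`: `q_m b t_m = b q_m t_m = b t_(m-1) q_m`, form (1);
`b = b' q_(m-1) b''` (`m ≥ 2`): `q_m b' q_(m-1) b'' t_m = b' q_m q_(m-1) t_m b'' = b' q_m t_m q_(m-1) b'' = b' t_(m-1) q_m q_(m-1) b''`, form (1); `b = b' t_(m-1)`: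
`q_m b' t_(m-1) t_m = b' q_m t_m t_(m-1) = b' t_(m-1) q_m t_(m-1)`, form (1). (`q_m t_m = t_(m-1) q_m`.)
-/

set_option autoImplicit false

namespace Pool.Agent.H11.GK

variable {G : Type} [Group G] {q : ℕ → G} {n : ℕ}

theorem tm_mem (q : ℕ → G) (m : ℕ) : tm q m ∈ Hm q (m + 1) := by
  induction m with
  | zero => exact mem_Hm q Nat.zero_lt_one
  | succ m ih =>
    have h1 : q (m + 1) ∈ Hm q (m + 1 + 1) := mem_Hm q (Nat.lt_succ_self _)
    exact mul_mem (mul_mem h1 (Hm_mono q (Nat.le_succ _) ih)) h1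

private theorem tm_sq (h : Cox q 1 n) (m : ℕ) : tm q m * tm q m = 1 := by
  induction m with
  | zero => exact h.inv 0
  | succ m ih =>
    show q (m + 1) * tm q m * q (m + 1) * (q (m + 1) * tm q m * q (m + 1)) = 1
    calc q (m + 1) * tm q m * q (m + 1) * (q (m + 1) * tm q m * q (m + 1))
        = q (m + 1) * tm q m * (q (m + 1) * q (m + 1)) * tm q m * q (m + 1) := by
          simp only [mul_assoc]
      _ = q (m + 1) * (tm q m * tm q m) * q (m + 1) := by
          rw [h.inv, mul_one]; simp only [mul_assoc]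
      _ = 1 := by rw [ih, mul_one, h.inv]

private theorem tm_comm_gen (h : Cox q 1 n) (h4 : q 0 * q 1 * q 0 * q 1 = q 1 * q 0 * q 1 * q 0) (m : ℕ)
    (hm : m ≤ n) : ∀ i < m, tm q m * q i = q i * tm q m := by
  induction m with
  | zero =>
    intro i hi
    exact absurd hi (Nat.not_lt_zero i)
  | succ m ih =>
    intro i hi
    rcases Nat.lt_or_ge i m with hlt | hge
    · have e1 : q i * q (m + 1) = q (m + 1) * q i := h.comm i (m + 1) (by omega)
      have e2 : tm q m * q i = q i * tm q m := ih (by omega) i hlt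
      show q (m + 1) * tm q m * q (m + 1) * q i = q i * (q (m + 1) * tm q m * q (m + 1))
      calc q (m + 1) * tm q m * q (m + 1) * q i
          = q (m + 1) * tm q m * (q (m + 1) * q i) := by simp only [mul_assoc]
        _ = q (m + 1) * (tm q m * q i) * q (m + 1) := by rw [← e1]; simp only [mul_assoc]
        _ = (q (m + 1) * q i) * tm q m * q (m + 1) := by rw [e2]; simp only [mul_assoc]
        _ = q i * (q (m + 1) * tm q m * q (m + 1)) := by rw [← e1]; simp only [mul_assoc]
    · have him : i = m := by omega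
      subst him
      cases i with
      | zero =>
        show q 1 * q 0 * q 1 * q 0 = q 0 * (q 1 * q 0 * q 1)
        rw [← h4]; simp only [mul_assoc]
      | succ m' =>
        have e1 : q (m' + 1 + 1) * tm q m' = tm q m' * q (m' + 1 + 1) :=
          Hm_comm h (Nat.le_refl _) (tm_mem q m')
        have e2 : q (m' + 1) * q (m' + 1 + 1) * q (m' + 1) =
            q (m' + 1 + 1) * q (m' + 1) * q (m' + 1 + 1) := h.braid (m' + 1) (by omega) hm
        show q (m' + 1 + 1) * (q (m' + 1) * tm q m' * q (m' + 1)) * q (m' + 1 + 1) * q (m' + 1) =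
          q (m' + 1) * (q (m' + 1 + 1) * (q (m' + 1) * tm q m' * q (m' + 1)) * q (m' + 1 + 1))
        symm
        calc q (m' + 1) * (q (m' + 1 + 1) * (q (m' + 1) * tm q m' * q (m' + 1)) * q (m' + 1 + 1))
            = (q (m' + 1) * q (m' + 1 + 1) * q (m' + 1)) * tm q m' * q (m' + 1) * q (m' + 1 + 1) := by
              simp only [mul_assoc]
          _ = q (m' + 1 + 1) * q (m' + 1) * (q (m' + 1 + 1) * tm q m') * q (m' + 1) * q (m' + 1 + 1) := by
              rw [e2]; simp only [mul_assoc]
          _ = q (m' + 1 + 1) * q (m' + 1) * tm q m' *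
                (q (m' + 1 + 1) * q (m' + 1) * q (m' + 1 + 1)) := by
              rw [e1]; simp only [mul_assoc]
          _ = q (m' + 1 + 1) * (q (m' + 1) * tm q m' * q (m' + 1)) * q (m' + 1 + 1) * q (m' + 1) := by
              rw [← e2]; simp only [mul_assoc]

theorem tm_comm (h : Cox q 1 n) (h4 : q 0 * q 1 * q 0 * q 1 = q 1 * q 0 * q 1 * q 0) {m : ℕ} (hm : m ≤ n) {g : G}
    (hg : g ∈ Hm q m) : tm q m * g = g * tm q m := by
  refine Hm_ind h (fun g => tm q m * g = g * tm q m) ?_ ?_ hg
  · rw [mul_one, one_mul]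
  · intro i hi g _ hY
    show tm q m * (q i * g) = q i * g * tm q m
    rw [← mul_assoc, tm_comm_gen h h4 m hm i hi, mul_assoc, hY, mul_assoc]

theorem decB (h : Cox q 1 n) (h4 : q 0 * q 1 * q 0 * q 1 = q 1 * q 0 * q 1 * q 0) {m : ℕ} (hm : m ≤ n) {g : G}
    (hg : g ∈ Hm q (m + 1)) :
    g ∈ Hm q m ∨ (∃ b ∈ Hm q m, ∃ c ∈ Hm q m, g = b * q m * c) ∨ ∃ b ∈ Hm q m, g = b * tm q m := by
  induction m generalizing g with
  | zero =>
    refine Hm_ind h (fun g => g ∈ Hm q 0 ∨ (∃ b ∈ Hm q 0, ∃ c ∈ Hm q 0, g = b * q 0 * c) ∨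
      ∃ b ∈ Hm q 0, g = b * tm q 0) (Or.inl (one_mem _)) ?_ hg
    intro i hi g _ hY
    have hi0 : i = 0 := by omega
    subst hi0
    rcases hY with h0 | ⟨b, hb, c, hc, rfl⟩ | ⟨b, hb, rfl⟩
    · exact Or.inr (Or.inl ⟨1, one_mem _, g, h0, by rw [one_mul]⟩)
    · left
      rw [Hm_zero q hb, Hm_zero q hc, one_mul, mul_one, h.inv]
      exact one_mem _
    · left
      rw [Hm_zero q hb, one_mul]
      show q 0 * q 0 ∈ Hm q 0
      rw [h.inv]
      exact one_mem _
  | succ m ih =>
    have hx : q (m + 1) * q (m + 1) = 1 := h.inv (m + 1)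
    have hxc : ∀ b ∈ Hm q m, q (m + 1) * b = b * q (m + 1) := fun b hb => Hm_comm h (Nat.le_refl _) hb
    have hle : Hm q m ≤ Hm q (m + 1) := Hm_mono q (Nat.le_succ m)
    have htH : tm q m ∈ Hm q (m + 1) := tm_mem q m
    have hyH : q m ∈ Hm q (m + 1) := mem_Hm q (Nat.lt_succ_self m)
    have htc : ∀ b ∈ Hm q (m + 1), tm q (m + 1) * b = b * tm q (m + 1) := fun b hb =>
      tm_comm h h4 hm hb
    have hdef : q (m + 1) * tm q m * q (m + 1) = tm q (m + 1) := rfl
    have hxt : q (m + 1) * tm q (m + 1) = tm q m * q (m + 1) := by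
      rw [← hdef]
      calc q (m + 1) * (q (m + 1) * tm q m * q (m + 1))
          = (q (m + 1) * q (m + 1)) * tm q m * q (m + 1) := by simp only [mul_assoc]
        _ = tm q m * q (m + 1) := by rw [hx, one_mul]
    refine Hm_ind h (fun g => g ∈ Hm q (m + 1) ∨
      (∃ b ∈ Hm q (m + 1), ∃ c ∈ Hm q (m + 1), g = b * q (m + 1) * c) ∨
      ∃ b ∈ Hm q (m + 1), g = b * tm q (m + 1)) (Or.inl (one_mem _)) ?_ hg
    intro i hi g _ hY
    rcases Nat.lt_or_ge i (m + 1) with hlt | hge
    · have hqi : q i ∈ Hm q (m + 1) := mem_Hm q hlt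
      rcases hY with h0 | ⟨b, hb, c, hc, rfl⟩ | ⟨b, hb, rfl⟩
      · exact Or.inl (mul_mem hqi h0)
      · exact Or.inr (Or.inl ⟨q i * b, mul_mem hqi hb, c, hc, by simp only [mul_assoc]⟩)
      · exact Or.inr (Or.inr ⟨q i * b, mul_mem hqi hb, by simp only [mul_assoc]⟩)
    · have him : i = m + 1 := by omega
      subst him
      rcases hY with h0 | ⟨b, hb, c, hc, rfl⟩ | ⟨b, hb, rfl⟩
      · exact Or.inr (Or.inl ⟨1, one_mem _, g, h0, by rw [one_mul]⟩)
      · -- form (1)
        have third : ∀ b' ∈ Hm q m, b = b' * tm q m →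
            ∃ e ∈ Hm q (m + 1), q (m + 1) * (b * q (m + 1) * c) = e * tm q (m + 1) := by
          intro b' hb' e
          refine ⟨b' * c, mul_mem (hle hb') hc, ?_⟩
          rw [e]
          calc q (m + 1) * (b' * tm q m * q (m + 1) * c)
              = (q (m + 1) * b') * tm q m * q (m + 1) * c := by simp only [mul_assoc]
            _ = b' * (q (m + 1) * tm q m * q (m + 1)) * c := by
                rw [hxc b' hb']; simp only [mul_assoc]
            _ = b' * (tm q (m + 1) * c) := by rw [hdef, mul_assoc]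
            _ = b' * c * tm q (m + 1) := by rw [htc c hc, mul_assoc]
        rcases ih (by omega) hb with h0 | ⟨b', hb', b'', hb'', e⟩ | ⟨b', hb', e⟩
        · left
          have e1 : q (m + 1) * (b * q (m + 1) * c) = b * c := by
            calc q (m + 1) * (b * q (m + 1) * c)
                = (q (m + 1) * b) * q (m + 1) * c := by simp only [mul_assoc]
              _ = b * (q (m + 1) * q (m + 1)) * c := by rw [hxc b h0]; simp only [mul_assoc]
              _ = b * c := by rw [hx, mul_one]
          rw [e1]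
          exact mul_mem hb hc
        · rcases Nat.eq_zero_or_pos m with hm0 | hm0
          · subst hm0
            right; right
            refine third 1 (one_mem _) ?_
            rw [e, Hm_zero q hb', Hm_zero q hb'', one_mul, mul_one]
            show q 0 = 1 * q 0
            rw [one_mul]
          · right; left
            refine ⟨b' * q m, mul_mem (hle hb') hyH, q m * b'' * c,
              mul_mem (mul_mem hyH (hle hb'')) hc, ?_⟩
            have hbr : q m * q (m + 1) * q m = q (m + 1) * q m * q (m + 1) := h.braid m hm0 hm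
            rw [e]
            calc q (m + 1) * (b' * q m * b'' * q (m + 1) * c)
                = (q (m + 1) * b') * q m * (b'' * q (m + 1)) * c := by simp only [mul_assoc]
              _ = b' * (q (m + 1) * q m * q (m + 1)) * b'' * c := by
                  rw [hxc b' hb', ← hxc b'' hb'']; simp only [mul_assoc]
              _ = b' * q m * q (m + 1) * (q m * b'' * c) := by
                  rw [← hbr]; simp only [mul_assoc]
        · right; right
          exact third b' hb' e
      · -- form (2)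
        right; left
        rcases ih (by omega) hb with h0 | ⟨b', hb', b'', hb'', e⟩ | ⟨b', hb', e⟩
        · refine ⟨b * tm q m, mul_mem hb htH, 1, one_mem _, ?_⟩
          calc q (m + 1) * (b * tm q (m + 1)) = (q (m + 1) * b) * tm q (m + 1) := by
                simp only [mul_assoc]
            _ = b * (q (m + 1) * tm q (m + 1)) := by rw [hxc b h0]; simp only [mul_assoc]
            _ = b * tm q m * q (m + 1) * 1 := by rw [hxt, mul_one]; simp only [mul_assoc]
        · refine ⟨b' * tm q m, mul_mem (hle hb') htH, q m * b'', mul_mem hyH (hle hb''), ?_⟩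
          rw [e]
          calc q (m + 1) * (b' * q m * b'' * tm q (m + 1))
              = (q (m + 1) * b') * ((q m * b'') * tm q (m + 1)) := by simp only [mul_assoc]
            _ = b' * (q (m + 1) * tm q (m + 1)) * (q m * b'') := by
                rw [hxc b' hb', ← htc (q m * b'') (mul_mem hyH (hle hb''))]
                simp only [mul_assoc]
            _ = b' * tm q m * q (m + 1) * (q m * b'') := by rw [hxt]; simp only [mul_assoc]
        · refine ⟨b' * tm q m, mul_mem (hle hb') htH, tm q m, htH, ?_⟩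
          rw [e]
          calc q (m + 1) * (b' * tm q m * tm q (m + 1))
              = (q (m + 1) * b') * (tm q m * tm q (m + 1)) := by simp only [mul_assoc]
            _ = b' * (q (m + 1) * tm q (m + 1)) * tm q m := by
                rw [hxc b' hb', ← htc (tm q m) htH]; simp only [mul_assoc]
            _ = b' * tm q m * q (m + 1) * tm q m := by rw [hxt]; simp only [mul_assoc]

end Pool.Agent.H11.GK
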