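import Pool.Agent.H11.KS.Main

/-!
# GK.Defs : convex `d`-polytopes with at most `d - 29` flag orbits under the SYMMETRY group are regular (MP_166b83_co): definitions

Paper: /team-store/h11_gk_paper.md
-/

set_option autoImplicit false

namespace Pool.Agent.H11.GK

open H63.KO KOrbit

/-- the subgroup generated by `q 0, ..., q (m-1)` -/
def Hm {G : Type} [Group G] (q : ℕ → G) (m : ℕ) : Subgroup G := Subgroup.closure (q '' {i | i < m})

/-- `q m ⋯ q 1 q 0 q 1 ⋯ q m` -/
def tm {G : Type} [Group G] (q : ℕ → G) : ℕ → G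
  | 0 => q 0
  | m + 1 => q (m + 1) * tm q m * q (m + 1)

/-- commuting involutions with braid relations for the pairs `(i, i+1)`, `a ≤ i < n` -/
structure Cox {G : Type} [Group G] (q : ℕ → G) (a n : ℕ) : Prop where
  inv : ∀ i, q i * q i = 1
  comm : ∀ i j, i + 2 ≤ j → q i * q j = q j * q i
  braid : ∀ i, a ≤ i → i + 1 ≤ n → q i * q (i + 1) * q i = q (i + 1) * q i * q (i + 1)

/-- the involutions of a set of flags with `D` colours, and a map to classes on which the colours `1, ..., D-1` act in the same way -/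
structure PS (X V : Type) (D : ℕ) where
  r : ℕ → X → X
  π : X → V
  inv : ∀ i x, r i (r i x) = x
  comm : ∀ i j, i + 2 ≤ j → ∀ x, r i (r j x) = r j (r i x)
  braid : ∀ i, 1 ≤ i → i + 2 ≤ D → ∀ x, r i (r (i + 1) (r i x)) = r (i + 1) (r i (r (i + 1) x))
  last : (∀ x, r (D - 1) (r D (r (D - 1) x)) = r D (r (D - 1) (r D x))) ∨
    (∀ x, r (D - 1) (r D (r (D - 1) (r D x))) = r D (r (D - 1) (r D (r (D - 1) x))))
  conn : ∀ (Z : X → Prop), (∀ i, 1 ≤ i → i ≤ D → ∀ x, Z x → Z (r i x)) → ∀ x y, Z x → Z y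
  same : ∀ i j, 1 ≤ i → i + 1 ≤ D → 1 ≤ j → j + 1 ≤ D → ∀ x, π (r i x) = π (r j x)

/-- the colour `i` as a permutation -/
def PS.p {X V : Type} {D : ℕ} (S : PS X V D) (i : ℕ) : Equiv.Perm X := ⟨S.r i, S.r i, S.inv i, S.inv i⟩

/-- the group generated by the colours `1, ..., D` -/
def PS.M {X V : Type} {D : ℕ} (S : PS X V D) : Subgroup (Equiv.Perm X) :=
  Subgroup.closure (S.p '' {i | 1 ≤ i ∧ i ≤ D})

/-- the automorphisms of the face lattice which are induced by symmetries -/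
def Gm {d : ℕ} (Q : Set (Euc d)) : Subgroup (Face Q ≃o Face Q) where
  carrier := {φ | ∃ g : Euc d ≃ᵢ Euc d, g '' Q = Q ∧ ∀ F : Face Q, ((φ F : Face Q) : Set (Euc d)) = g '' (F : Set (Euc d))}
  one_mem' := ⟨IsometryEquiv.refl _, Set.image_id _, fun F => (Set.image_id _).symm⟩
  mul_mem' := by
    rintro φ ψ ⟨g, hg, hφ⟩ ⟨h, hh, hψ⟩
    have hc : ∀ A : Set (Euc d), (h.trans g) '' A = g '' (h '' A) := fun A => Set.image_comp g h A
    refine ⟨h.trans g, ?_, fun F => ?_⟩
    · rw [hc, hh, hg]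
    · rw [hc, ← hψ, ← hφ]
      rfl
  inv_mem' := by
    rintro φ ⟨g, hg, hφ⟩
    refine ⟨g.symm, ?_, fun F => ?_⟩
    · conv_lhs => rw [← hg]
      rw [← Set.image_comp]
      simp
    · have h := hφ (φ⁻¹ F)
      rw [show φ (φ⁻¹ F) = F from φ.apply_symm_apply F] at h
      rw [h, ← Set.image_comp]
      simp

/-- vectors attached to the faces of rank `j`: their inner products are invariant under symmetries, they span the space, and an automorphism
of the lattice which acts on them as a linear isometry is induced by a symmetry -/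
def HasGram {d : ℕ} {Q : Set (Euc d)} (P : PolyLat (Face Q)) (j : ℕ) : Prop :=
  ∃ u : Face Q → Euc d,
    (∀ φ ∈ Gm Q, ∀ A B : Face Q, P.rk A = j → P.rk B = j → inner ℝ (u (φ A)) (u (φ B)) = inner ℝ (u A) (u B)) ∧
    Submodule.span ℝ (u '' {A | P.rk A = j}) = ⊤ ∧
    ∀ φ : Face Q ≃o Face Q, (∃ L : Euc d ≃ₗᵢ[ℝ] Euc d, ∀ A, P.rk A = j → L (u A) = u (φ A)) → φ ∈ Gm Q

end Pool.Agent.H11.GK
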