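import Pool.Agent.H11.GK.Defs

/-!
# Module ExpF: an exposed face of a face of a polytope is a face; faces and coatoms, the centre

* `exposed_sub`: `Q = convexHull T`, `F = {x ∈ Q | m x = M}` with `m ≤ M` on `Q` (`F` nonempty), `F' = {x ∈ F | l x = N}`, `N` the maximum of `l` on `F`. `T` is finite: there is `c > 0` with
  `c m p + l p < c M + N` for all `p ∈ T \ F`. Every point of `Q` is a convex combination of points of `T`, so `c m + l ≤ c M + N` on `Q`, with equality exactly on `F'`. (`F` empty: clear.)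
* `bot_eq`, `top_eq`: the empty set and `Q` are exposed.
* `proper`: if `F ≠ Q` is a face then (`Q` has interior) the functional which exposes it is not `0`, and `F` does not meet the interior.
* `bdry`: a point `x ∈ Q` which is not in the interior is in a face `≠ Q`: supporting hyperplane (`geometric_hahn_banach_open` or `geometric_hahn_banach_open_point` for the interior of `Q`, and `Q = closure (interior Q)`: `Convex.closure_interior_eq_closure_of_nonempty_interior`).
-/

set_option autoImplicit false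

namespace Pool.Agent.H11.GK

open H63.KO KOrbit

variable {d : ℕ} {Q : Set (Euc d)}

private theorem ef_convex (hQ : IsPolytope Q) : Convex ℝ Q := by
  obtain ⟨⟨T, rfl⟩, _⟩ := hQ
  exact convex_convexHull ℝ _

private theorem ef_compact (hQ : IsPolytope Q) : IsCompact Q := by
  obtain ⟨⟨T, rfl⟩, _⟩ := hQ
  exact T.finite_toSet.isCompact_convexHull ℝ

theorem exposed_sub (hQ : IsPolytope Q) {F : Set (Euc d)} (hF : IsExposed ℝ Q F) (l : Euc d →L[ℝ] ℝ) :
    IsExposed ℝ Q {x | x ∈ F ∧ ∀ y ∈ F, l y ≤ l x} := by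
  rintro ⟨x0, hx0, hx0'⟩
  obtain ⟨m, hm⟩ := hF ⟨x0, hx0⟩
  have h0 : x0 ∈ Q ∧ ∀ y ∈ Q, m y ≤ m x0 := by
    have := hx0
    rw [hm] at this
    exact this
  have hmF : ∀ x, x ∈ F ↔ x ∈ Q ∧ m x0 ≤ m x := by
    intro x
    constructor
    · intro hx
      rw [hm] at hx
      exact ⟨hx.1, hx.2 x0 h0.1⟩
    · intro hx
      rw [hm]
      exact ⟨hx.1, fun y hy => (h0.2 y hy).trans hx.2⟩
  obtain ⟨⟨T, hT⟩, _⟩ := hQ
  have hTQ : ∀ p ∈ T, p ∈ Q := fun p hp => by
    rw [hT]
    exact subset_convexHull ℝ _ hp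
  -- the constant
  obtain ⟨c, hc0, hc⟩ : ∃ c : ℝ, 0 ≤ c ∧ ∀ p ∈ T, l p - l x0 ≤ c * (m x0 - m p) := by
    refine ⟨∑ p ∈ T, |l p - l x0| / |m x0 - m p|, Finset.sum_nonneg fun p _ => by positivity, fun p hp => ?_⟩
    by_cases hpF : p ∈ F
    · have h1 := hx0' p hpF
      have h2 := ((hmF p).1 hpF).2
      have h3 := h0.2 p (hTQ p hp)
      have h4 : m x0 - m p = 0 := by linarith
      rw [h4, mul_zero]
      linarith
    · have h2 : m p < m x0 := by
        by_contra hcon
        exact hpF ((hmF p).2 ⟨hTQ p hp, not_lt.1 hcon⟩)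
      have h3 : 0 < m x0 - m p := by linarith
      have h4 : |l p - l x0| / |m x0 - m p| ≤ ∑ q ∈ T, |l q - l x0| / |m x0 - m q| :=
        Finset.single_le_sum (f := fun q => |l q - l x0| / |m x0 - m q|) (fun q _ => by positivity) hp
      have h5 : |l p - l x0| / |m x0 - m p| * (m x0 - m p) = |l p - l x0| := by
        rw [abs_of_pos h3]
        field_simp
      calc l p - l x0 ≤ |l p - l x0| := le_abs_self _
        _ = |l p - l x0| / |m x0 - m p| * (m x0 - m p) := h5.symm
        _ ≤ _ := mul_le_mul_of_nonneg_right h4 h3.le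
  have hall : ∀ x ∈ Q, l x - l x0 ≤ c * (m x0 - m x) := by
    have hsub : Q ⊆ {x | (l + c • m) x ≤ l x0 + c * m x0} := by
      rw [hT]
      refine convexHull_min (fun p hp => ?_) ?_
      · have := hc p hp
        change l p + c • m p ≤ l x0 + c * m x0
        rw [smul_eq_mul]
        linarith
      · exact convex_halfSpace_le (l + c • m).toLinearMap.isLinear _
    intro x hx
    have h1 : l x + c • m x ≤ l x0 + c * m x0 := hsub hx
    rw [smul_eq_mul] at h1
    linarith
  refine ⟨l + (c + 1) • m, ?_⟩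
  have hval : ∀ x, (l + (c + 1) • m) x = l x + (c + 1) * m x := fun x => rfl
  ext x
  constructor
  · rintro ⟨hx, hx'⟩
    have hx1 := (hmF x).1 hx
    refine ⟨hx1.1, fun y hy => ?_⟩
    rw [hval, hval]
    have h1 := hall y hy
    have h2 := hx' x0 hx0
    have h3 := h0.2 y hy
    nlinarith [hx1.2]
  · rintro ⟨hx, hx'⟩
    have h1 := hx' x0 h0.1
    rw [hval, hval] at h1
    have h2 := hall x hx
    have h3 := h0.2 x hx
    have h4 : m x0 ≤ m x := by nlinarith
    have h5 : m x = m x0 := le_antisymm h3 h4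
    refine ⟨(hmF x).2 ⟨hx, h4⟩, fun y hy => ?_⟩
    have h6 := hx0' y hy
    rw [h5] at h1
    linarith

theorem bot_eq (P : PolyLat (Face Q)) : (P.bot : Set (Euc d)) = ∅ :=
  Set.subset_empty_iff.1 (P.bot_le ⟨∅, isExposed_empty⟩)

theorem top_eq (P : PolyLat (Face Q)) : (P.top : Set (Euc d)) = Q :=
  Set.Subset.antisymm P.top.2.subset (P.le_top ⟨Q, IsExposed.refl Q⟩)

theorem bdry (hQ : IsPolytope Q) {x : Euc d} (hx : x ∈ Q) (hx' : x ∉ interior Q) :
    ∃ F : Face Q, x ∈ (F : Set (Euc d)) ∧ (F : Set (Euc d)) ≠ Q := by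
  have hconv := ef_convex hQ
  obtain ⟨f, hf⟩ := geometric_hahn_banach_open_point hconv.interior isOpen_interior hx'
  have hle : ∀ y ∈ Q, f y ≤ f x := by
    intro y hy
    have h1 : y ∈ closure (interior Q) := by
      rw [hconv.closure_interior_eq_closure_of_nonempty_interior hQ.2]
      exact subset_closure hy
    have h2 : closure (interior Q) ⊆ {z | f z ≤ f x} :=
      closure_minimal (fun z hz => (hf z hz).le) (isClosed_le f.continuous continuous_const)
    exact h2 h1
  refine ⟨⟨{z | z ∈ Q ∧ ∀ y ∈ Q, f y ≤ f z}, fun _ => ⟨f, rfl⟩⟩, ⟨hx, hle⟩, fun hEq => ?_⟩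
  obtain ⟨a, ha⟩ := hQ.2
  have h1 : a ∈ {z | z ∈ Q ∧ ∀ y ∈ Q, f y ≤ f z} := by
    have h2 : a ∈ Q := interior_subset ha
    rw [← hEq] at h2
    exact h2
  exact absurd (h1.2 x hx) (not_le.2 (hf a ha))

theorem proper (hQ : IsPolytope Q) {F : Face Q} (hF : (F : Set (Euc d)) ≠ Q) {x : Euc d} (hx : x ∈ (F : Set (Euc d))) :
    x ∉ interior Q := by
  intro hxi
  obtain ⟨l, hl⟩ := F.2 ⟨x, hx⟩
  have hx1 : x ∈ Q ∧ ∀ y ∈ Q, l y ≤ l x := by
    have := hx
    rw [hl] at this
    exact this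
  have hmax : IsLocalMax l x := by
    refine Filter.mem_of_superset (mem_interior_iff_mem_nhds.1 hxi) fun y hy => ?_
    exact hx1.2 y hy
  have h0 : l = 0 := hmax.hasFDerivAt_eq_zero l.hasFDerivAt
  apply hF
  rw [hl]
  ext y
  constructor
  · intro hy
    exact hy.1
  · intro hy
    refine ⟨hy, fun z _ => ?_⟩
    rw [h0]
    exact le_refl _

/-- a face `F` with `F ≤ G` as sets is `≤` in the lattice, and conversely -/
theorem le_iff {F G : Face Q} : F ≤ G ↔ (F : Set (Euc d)) ⊆ (G : Set (Euc d)) := Iff.rfl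

/-- faces are compact and convex -/
theorem face_compact (hQ : IsPolytope Q) (F : Face Q) : IsCompact (F : Set (Euc d)) ∧ Convex ℝ (F : Set (Euc d)) :=
  ⟨F.2.isCompact (ef_compact hQ), F.2.convex (ef_convex hQ)⟩

end Pool.Agent.H11.GK
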