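import Pool.Agent.H11.GK.FacN

/-!
# Module FacH: a polytope is the intersection of the half spaces of its facets; `c` is any interior point

* `hrep`: let `z ∉ Q`, `c ∈ interior Q`. The point `b = c + s (z - c)`, `s = sup {s ∈ [0,1] | c + s (z-c) ∈ Q}`, `0 < s < 1`, is in `Q` (closed), not interior; `bdry`: `b ∈ F'`, `F' ≠ Q`, so `F' ≠ P.top` (`top_eq`), `rk F' ≤ P.d`; `H73.TO.exists_coatom`: `F' ≤ F`, `P.rk F = P.d`. `⟪b - c, y F⟫ = 1`, `b - c = s (z - c)`: `⟪z - c, y F⟫ = 1/s > 1`.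
* `face_inter`: let `x ∈ Q` be in all facets `F ≥ G`. Let `K` be the smallest face which contains `x` (finitely many faces; `IsExposed.inter`, `Finite (Face Q)`; e.g. a face of minimal rank which contains `x`). For a facet `F ≥ G`: `x ∈ F`, so `K ∩ F` is a face which contains `x`, so `K ≤ F`. By `H73.TO.le_of_coatoms` `K ≤ G`, so `x ∈ G`.
-/

set_option autoImplicit false

namespace Pool.Agent.H11.GK

open H63.KO KOrbit

variable {d : ℕ} {Q : Set (Euc d)}

theorem hrep [Finite (Face Q)] (hQ : IsPolytope Q) (P : PolyLat (Face Q)) {c : Euc d} (hc : c ∈ interior Q) {y : Face Q → Euc d}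
    (hy : ∀ F : Face Q, P.rk F = P.d → IsNormal Q c F (y F)) (z : Euc d)
    (hz : ∀ F, P.rk F = P.d → inner ℝ (z - c) (y F) ≤ 1) : z ∈ Q := by
  by_contra hzQ
  have hcl : IsClosed Q := by
    have h1 := (face_compact hQ P.top).1
    rw [top_eq P] at h1
    exact h1.isClosed
  have hγ : Continuous fun s : ℝ => c + s • (z - c) := by fun_prop
  have hcomp : IsCompact (Set.Icc (0 : ℝ) 1 ∩ (fun s : ℝ => c + s • (z - c)) ⁻¹' Q) :=
    isCompact_Icc.inter_right (hcl.preimage hγ)
  have hne : (Set.Icc (0 : ℝ) 1 ∩ (fun s : ℝ => c + s • (z - c)) ⁻¹' Q).Nonempty := by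
    refine ⟨0, ⟨le_refl _, zero_le_one⟩, ?_⟩
    show c + (0 : ℝ) • (z - c) ∈ Q
    rw [zero_smul, add_zero]
    exact interior_subset hc
  obtain ⟨s, ⟨⟨hs0, hs1⟩, hsQ⟩, hmax⟩ := hcomp.exists_isGreatest hne
  have hsQ' : c + s • (z - c) ∈ Q := hsQ
  have hs1' : s < 1 := by
    rcases hs1.lt_or_eq with h | h
    · exact h
    · rw [h, one_smul, add_sub_cancel] at hsQ'
      exact absurd hsQ' hzQ
  have hnint : c + s • (z - c) ∉ interior Q := by
    intro hint
    have hop : IsOpen ((fun s : ℝ => c + s • (z - c)) ⁻¹' interior Q) := isOpen_interior.preimage hγ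
    obtain ⟨ε, hε, hball⟩ := Metric.isOpen_iff.1 hop s hint
    have hlt : s < min (s + ε / 2) 1 := lt_min (by linarith) hs1'
    have hmem : min (s + ε / 2) 1 ∈ Metric.ball s ε := by
      rw [Metric.mem_ball, Real.dist_eq, abs_of_pos (by linarith)]
      have := min_le_left (s + ε / 2) 1
      linarith
    have h2 : c + (min (s + ε / 2) 1) • (z - c) ∈ Q := interior_subset (hball hmem)
    have h3 : min (s + ε / 2) 1 ≤ s := hmax ⟨⟨by linarith, min_le_right _ _⟩, h2⟩
    linarith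
  have hs0' : 0 < s := by
    rcases hs0.lt_or_eq with h | h
    · exact h
    · rw [← h, zero_smul, add_zero] at hnint
      exact absurd hc hnint
  obtain ⟨F', hbF', hF'⟩ := bdry hQ hsQ' hnint
  have hrk : P.rk F' ≤ P.d := by
    have h1 := PolyLat.rk_le (P := P) (P.le_top F')
    rw [P.rk_top] at h1
    by_contra h2
    have h3 : F' = P.top := PolyLat.eq_of_le (P := P) (P.le_top F') (by rw [P.rk_top]; omega)
    apply hF'
    rw [h3]
    exact top_eq P
  obtain ⟨F, hF'F, hF⟩ := H73.TO.exists_coatom P hrk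
  have hbF : c + s • (z - c) ∈ (F : Set (Euc d)) := hF'F hbF'
  rw [(hy F hF).2] at hbF
  have h4 : inner ℝ (c + s • (z - c) - c) (y F) = (1 : ℝ) := hbF.2
  rw [add_sub_cancel_left, inner_smul_left] at h4
  have h5 := hz F hF
  have h6 : s * inner ℝ (z - c) (y F) = 1 := h4
  nlinarith

theorem face_inter [Finite (Face Q)] (P : PolyLat (Face Q)) (G : Face Q) {x : Euc d} (hx : x ∈ Q)
    (h : ∀ F : Face Q, P.rk F = P.d → G ≤ F → x ∈ (F : Set (Euc d))) : x ∈ (G : Set (Euc d)) := by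
  have hex : ∃ n : ℕ, ∃ K : Face Q, x ∈ (K : Set (Euc d)) ∧ P.rk K = n := by
    refine ⟨_, P.top, ?_, rfl⟩
    rw [top_eq P]
    exact hx
  classical
  obtain ⟨K, hxK, hK⟩ := Nat.find_spec hex
  have hmin : ∀ F : Face Q, x ∈ (F : Set (Euc d)) → K ≤ F := by
    intro F hxF
    let I : Face Q := ⟨(K : Set (Euc d)) ∩ (F : Set (Euc d)), K.2.inter F.2⟩
    have hIK : I ≤ K := Set.inter_subset_left
    have hIF : I ≤ F := Set.inter_subset_right
    have h1 : Nat.find hex ≤ P.rk I := Nat.find_min' hex ⟨I, ⟨hxK, hxF⟩, rfl⟩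
    have h2 := PolyLat.rk_le (P := P) hIK
    have h3 : I = K := PolyLat.eq_of_le (P := P) hIK (by omega)
    rw [← h3]
    exact hIF
  have hKG : K ≤ G := H73.TO.le_of_coatoms P fun b hb hGb => hmin b (h b hb hGb)
  exact hKG hxK

end Pool.Agent.H11.GK
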