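import Pool.Agent.H11.GK.ExpF
import Pool.Agent.H73.TO.Lat2

/-!
# Module FacN: normals of facets; `c` is any interior point

* `exists_normal` for `P.rk F = P.d` (so `F ≠ P.top`, `F ≠ Q` as a set; `F` nonempty as `P.d ≥ 1`, `bot_eq`): `F = {x ∈ Q | l x maximal}`, `l ≠ 0`, `M` the maximum, `M > l c` (`c` interior, `l ≠ 0`; see `proper`). `y = z / (M - l c)` with `l = ⟪z, ·⟫` (`InnerProductSpace.toDual`).
* `normal_unique`: let `y, y'` be two such vectors, `w = y - y' ≠ 0`. `⟪x - c, w⟫ = 0` for `x ∈ F`. There is `x₀ ∈ Q` with `⟪x₀ - c, w⟫ > 0` (`c` interior). For `s ≥ 0` let `y_s = y + s w`. Let `s` be the largest number with `⟪x - c, y_s⟫ ≤ 1` for all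
  `x ∈ Q`, i.e. for all points of `T` (`Q = conv T`, `T` finite): `s = min` over `p ∈ T` with `⟪p - c, w⟫ > 0` of `(1 - ⟪p - c, y⟫)/⟪p - c, w⟫` (the set is nonempty). `F_s = {x ∈ Q | ⟪x - c, y_s⟫ = 1}` is a face, `F ⊆ F_s`, and the minimising `p` is in `F_s` but not in `F` (`⟪p - c, w⟫ ≠ 0`). So `F < F_s`, `rk F_s = P.d + 1`,
  `F_s = P.top`, `Q ⊆ F_s`, but `c ∉ F_s` (`0 ≠ 1`). Contradiction. (`F` may be empty here.)
-/

set_option autoImplicit false

namespace Pool.Agent.H11.GK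

open H63.KO KOrbit

variable {d : ℕ} {Q : Set (Euc d)}

/-- `y` is the normal of the facet `F`, normalised with respect to `c` -/
def IsNormal (Q : Set (Euc d)) (c : Euc d) (F : Set (Euc d)) (y : Euc d) : Prop :=
  (∀ x ∈ Q, inner ℝ (x - c) y ≤ 1) ∧ F = {x | x ∈ Q ∧ inner ℝ (x - c) y = 1}

private theorem exists_vertices (hQ : IsPolytope Q) : ∃ T : Set (Euc d), T.Finite ∧ Q = convexHull ℝ T := by
  obtain ⟨⟨T, hT⟩, -⟩ := hQ
  exact ⟨_, T.finite_toSet, hT⟩

theorem exists_normal (hQ : IsPolytope Q) (P : PolyLat (Face Q)) (hd : 1 ≤ P.d) {c : Euc d} (hc : c ∈ interior Q) {F : Face Q}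
    (hF : P.rk F = P.d) : ∃ y, IsNormal Q c F y := by
  have hne : (F : Set (Euc d)).Nonempty := by
    rw [Set.nonempty_iff_ne_empty]
    intro h0
    have h1 : F = P.bot := Subtype.ext (h0.trans (bot_eq P).symm)
    rw [h1, P.rk_bot] at hF
    omega
  have hQF : (F : Set (Euc d)) ≠ Q := by
    intro h0
    have h1 : F = P.top := Subtype.ext (h0.trans (top_eq P).symm)
    rw [h1, P.rk_top] at hF
    omega
  obtain ⟨l, hl⟩ := F.2 hne
  obtain ⟨x1, hx1⟩ := hne
  have hx1' := hx1
  rw [hl] at hx1'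
  have hcQ : c ∈ Q := interior_subset hc
  have hmem : ∀ x, x ∈ (F : Set (Euc d)) ↔ x ∈ Q ∧ l x = l x1 := by
    intro x
    constructor
    · intro hx
      rw [hl] at hx
      exact ⟨hx.1, le_antisymm (hx1'.2 x hx.1) (hx.2 x1 hx1'.1)⟩
    · rintro ⟨h1, h2⟩
      rw [hl]
      refine ⟨h1, fun y hy => ?_⟩
      rw [h2]
      exact hx1'.2 y hy
  have hlt : l c < l x1 := by
    refine lt_of_le_of_ne (hx1'.2 c hcQ) fun h0 => ?_
    exact proper hQ hQF ((hmem c).2 ⟨hcQ, h0⟩) hc
  have hpos : 0 < l x1 - l c := sub_pos.2 hlt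
  set z := (InnerProductSpace.toDual ℝ (Euc d)).symm l with hz
  have hzl : ∀ x : Euc d, inner ℝ x z = l x := by
    intro x
    rw [real_inner_comm, hz, InnerProductSpace.toDual_symm_apply]
  have hin : ∀ x : Euc d, inner ℝ (x - c) ((l x1 - l c)⁻¹ • z) = (l x - l c) / (l x1 - l c) := by
    intro x
    rw [inner_smul_right, hzl, map_sub, div_eq_inv_mul]
  refine ⟨(l x1 - l c)⁻¹ • z, ?_, ?_⟩
  · intro x hx
    rw [hin, div_le_one hpos]
    have := hx1'.2 x hx
    linarith
  · ext x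
    rw [hmem x]
    simp only [Set.mem_setOf_eq]
    refine and_congr_right fun _ => ?_
    rw [hin, div_eq_one_iff_eq hpos.ne']
    constructor
    · intro h
      rw [h]
    · intro h
      linarith

theorem normal_unique (hQ : IsPolytope Q) (P : PolyLat (Face Q)) {c : Euc d} (hc : c ∈ interior Q) {F : Face Q}
    (hF : P.rk F = P.d) {y y' : Euc d} (hy : IsNormal Q c F y) (hy' : IsNormal Q c F y') : y = y' := by
  classical
  by_contra hne
  have hw : y - y' ≠ 0 := sub_ne_zero.2 hne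
  set w := y - y' with hwdef
  have hcQ : c ∈ Q := interior_subset hc
  have hFw : ∀ x ∈ (F : Set (Euc d)), inner ℝ (x - c) w = 0 := by
    intro x hx
    have h1 := hx
    have h2 := hx
    rw [hy.2] at h1
    rw [hy'.2] at h2
    rw [hwdef, inner_sub_right, h1.2, h2.2, sub_self]
  obtain ⟨x0, hx0, hx0p⟩ : ∃ x0 ∈ Q, 0 < inner ℝ (x0 - c) w := by
    have hcont : Filter.Tendsto (fun δ : ℝ => c + δ • w) (nhdsWithin 0 (Set.Ioi 0)) (nhds c) := by
      have h1 : Filter.Tendsto (fun δ : ℝ => c + δ • w) (nhds 0) (nhds (c + (0 : ℝ) • w)) := by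
        apply Continuous.tendsto
        fun_prop
      rw [zero_smul, add_zero] at h1
      exact h1.mono_left nhdsWithin_le_nhds
    have h2 : ∀ᶠ δ in nhdsWithin (0 : ℝ) (Set.Ioi 0), c + δ • w ∈ interior Q :=
      hcont.eventually (isOpen_interior.mem_nhds hc)
    obtain ⟨δ, h3, h4⟩ := (h2.and self_mem_nhdsWithin).exists
    refine ⟨c + δ • w, interior_subset h3, ?_⟩
    have e : c + δ • w - c = δ • w := by abel
    rw [e, real_inner_smul_left]
    exact mul_pos h4 (real_inner_self_pos.2 hw)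
  obtain ⟨T, hT, hQT⟩ := exists_vertices hQ
  have hconv : ∀ (u : Euc d) (b : ℝ), (∀ p ∈ T, inner ℝ (p - c) u ≤ b) → ∀ x ∈ Q, inner ℝ (x - c) u ≤ b := by
    intro u b h x hx
    have h1 : T ⊆ {x : Euc d | inner ℝ (x - c) u ≤ b} := fun p hp => h p hp
    have h2 : Convex ℝ {x : Euc d | inner ℝ (x - c) u ≤ b} := by
      intro x hx z hz a e ha he hae
      have hx' : inner ℝ (x - c) u ≤ b := hx
      have hz' : inner ℝ (z - c) u ≤ b := hz
      show inner ℝ (a • x + e • z - c) u ≤ b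
      have e1 : a • x + e • z - c = a • (x - c) + e • (z - c) := by
        have e2 : c = a • c + e • c := by rw [← add_smul, hae, one_smul]
        rw [smul_sub, smul_sub]
        nth_rw 1 [e2]
        abel
      rw [e1, inner_add_left, real_inner_smul_left, real_inner_smul_left]
      have e3 : b = a * b + e * b := by rw [← add_mul, hae, one_mul]
      rw [e3]
      exact add_le_add (mul_le_mul_of_nonneg_left hx' ha) (mul_le_mul_of_nonneg_left hz' he)
    rw [hQT] at hx
    exact convexHull_min h1 h2 hx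
  have hTQ : ∀ p ∈ T, p ∈ Q := by
    intro p hp
    rw [hQT]
    exact subset_convexHull ℝ T hp
  have hTp : ∃ p ∈ T, 0 < inner ℝ (p - c) w := by
    by_contra hcon
    push Not at hcon
    exact absurd (hconv w 0 hcon x0 hx0) (not_le.2 hx0p)
  set S : Finset (Euc d) := hT.toFinset.filter (fun p => 0 < inner ℝ (p - c) w) with hS
  have hSne : S.Nonempty := by
    obtain ⟨p, hp, hpp⟩ := hTp
    exact ⟨p, by rw [hS, Finset.mem_filter, Set.Finite.mem_toFinset]; exact ⟨hp, hpp⟩⟩
  obtain ⟨p0, hp0, hmin⟩ := S.exists_min_image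
    (fun p => (1 - inner ℝ (p - c) y) / inner ℝ (p - c) w) hSne
  have hp0' : p0 ∈ T ∧ 0 < inner ℝ (p0 - c) w := by
    rw [hS, Finset.mem_filter, Set.Finite.mem_toFinset] at hp0
    exact hp0
  set s : ℝ := (1 - inner ℝ (p0 - c) y) / inner ℝ (p0 - c) w with hs
  have hs0 : 0 ≤ s := by
    apply div_nonneg _ hp0'.2.le
    have := hy.1 p0 (hTQ p0 hp0'.1)
    linarith
  have hall : ∀ x ∈ Q, inner ℝ (x - c) (y + s • w) ≤ 1 := by
    apply hconv
    intro p hp
    rw [inner_add_right, real_inner_smul_right]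
    have h1 := hy.1 p (hTQ p hp)
    by_cases hpp : 0 < inner ℝ (p - c) w
    · have h2 : s ≤ (1 - inner ℝ (p - c) y) / inner ℝ (p - c) w := by
        apply hmin
        rw [hS, Finset.mem_filter, Set.Finite.mem_toFinset]
        exact ⟨hp, hpp⟩
      rw [le_div_iff₀ hpp] at h2
      linarith
    · have h2 : s * inner ℝ (p - c) w ≤ 0 := mul_nonpos_of_nonneg_of_nonpos hs0 (not_lt.1 hpp)
      linarith
  have hp0s : inner ℝ (p0 - c) (y + s • w) = 1 := by
    rw [inner_add_right, real_inner_smul_right, hs, div_mul_cancel₀ _ hp0'.2.ne']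
    ring
  have hexp : IsExposed ℝ Q {x | x ∈ Q ∧ inner ℝ (x - c) (y + s • w) = 1} := by
    intro _
    refine ⟨InnerProductSpace.toDual ℝ (Euc d) (y + s • w), ?_⟩
    have hl : ∀ x : Euc d, (InnerProductSpace.toDual ℝ (Euc d) (y + s • w)) x =
        inner ℝ (x - c) (y + s • w) + inner ℝ c (y + s • w) := by
      intro x
      rw [InnerProductSpace.toDual_apply_apply, inner_sub_left, real_inner_comm]
      ring
    ext x
    simp only [Set.mem_setOf_eq]
    constructor
    · rintro ⟨h1, h2⟩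
      refine ⟨h1, fun z hz => ?_⟩
      rw [hl, hl, h2]
      have := hall z hz
      linarith
    · rintro ⟨h1, h2⟩
      refine ⟨h1, ?_⟩
      have h3 := h2 p0 (hTQ p0 hp0'.1)
      rw [hl, hl, hp0s] at h3
      have := hall x h1
      linarith
  set Fs : Face Q := ⟨_, hexp⟩ with hFs
  have hlt : F < Fs := by
    refine lt_of_le_of_ne ?_ ?_
    · rw [le_iff]
      intro x hx
      have h1 := hx
      rw [hy.2] at h1
      refine ⟨h1.1, ?_⟩
      rw [inner_add_right, real_inner_smul_right, h1.2, hFw x hx]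
      ring
    · intro h0
      have h1 : p0 ∈ (F : Set (Euc d)) := by
        rw [h0]
        exact ⟨hTQ p0 hp0'.1, hp0s⟩
      exact hp0'.2.ne' (hFw p0 h1)
  have h1 := P.rk_lt _ _ hlt
  have h2 := PolyLat.rk_le (P := P) (P.le_top Fs)
  have h3 : Fs = P.top := PolyLat.eq_of_le (P := P) (P.le_top Fs) (by rw [P.rk_top] at h2 ⊢; omega)
  have h4 : (Fs : Set (Euc d)) = Q := by
    rw [h3]
    exact top_eq P
  have h5 : c ∈ (Fs : Set (Euc d)) := by
    rw [h4]
    exact hcQ
  have h6 : inner ℝ (c - c) (y + s • w) = (1 : ℝ) := h5.2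
  rw [sub_self, inner_zero_left] at h6
  exact zero_ne_one h6

end Pool.Agent.H11.GK
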