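import Pool.Agent.H11.GK.Ctr
import Pool.Agent.H11.GK.FacH

/-!
# Module GFac: the Gram data of the facets

`c` from `exists_ctr`, `u F = y F` the normal (`exists_normal`). (i) `φ ∈ Gm Q` with `L`: `x ∈ F ↔ c + L (x - c) ∈ φ F` for all faces, also for `P.top = Q` (`φ P.top = P.top`), so `x ↦ c + L (x - c)` maps `Q` onto `Q`; `L (y F)` is a normal of `φ F`
(`⟪c + L (x - c) - c, L (y F)⟫ = ⟪x - c, y F⟫`), so `y (φ F) = L (y F)` (`normal_unique`, `rk_auto`).
(ii) otherwise there is `w ≠ 0` orthogonal to all `y F`; `hrep`: `c + s w ∈ Q` for all real `s`, but `Q` is bounded.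
(iii) `L (y F) = y (φ F)` for all facets. `g x = c + L (x - c)`, `⟪g x - c, y (φ F)⟫ = ⟪x - c, y F⟫`; so `x ∈ Q ↔ g x ∈ Q` (`hrep`; `φ` permutes the facets) and `x ∈ F ↔ g x ∈ φ F` for the facets, and for every face `G`: `x ∈ G` iff `x ∈ Q` and `x` is in all facets `≥ G` (`face_inter`),
the facets `≥ φ G` are the `φ F`, `F ≥ G`. `mem_Gm`.
-/

set_option autoImplicit false

namespace Pool.Agent.H11.GK

open H63.KO KOrbit

variable {d : ℕ} {Q : Set (Euc d)}

private theorem gf_top (P : PolyLat (Face Q)) (φ : Face Q ≃o Face Q) : φ P.top = P.top := by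
  refine le_antisymm (P.le_top _) ?_
  calc P.top = φ (φ.symm P.top) := (φ.apply_symm_apply _).symm
    _ ≤ φ P.top := φ.monotone (P.le_top _)

private theorem gf_normal (P : PolyLat (Face Q)) {c : Euc d} {φ : Face Q ≃o Face Q} {L : Euc d ≃ₗᵢ[ℝ] Euc d}
    (hL : ∀ F : Face Q, ∀ x : Euc d, x ∈ (F : Set (Euc d)) ↔ c + L (x - c) ∈ ((φ F : Face Q) : Set (Euc d)))
    {F : Face Q} {y : Euc d} (hy : IsNormal Q c F y) : IsNormal Q c (φ F : Face Q) (L y) := by
  have hz : ∀ x : Euc d, c + L (c + L.symm (x - c) - c) = x := by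
    intro x
    rw [add_sub_cancel_left, L.apply_symm_apply]
    abel
  have hin : ∀ x : Euc d, inner ℝ (x - c) (L y) = inner ℝ (c + L.symm (x - c) - c) y := by
    intro x
    rw [add_sub_cancel_left]
    conv_lhs => rw [← L.apply_symm_apply (x - c)]
    exact L.inner_map_map _ _
  have hQm : ∀ x : Euc d, c + L.symm (x - c) ∈ Q ↔ x ∈ Q := by
    intro x
    have h := hL P.top (c + L.symm (x - c))
    rw [gf_top, top_eq, hz] at h
    exact h
  have hFm : ∀ x : Euc d, c + L.symm (x - c) ∈ (F : Set (Euc d)) ↔ x ∈ ((φ F : Face Q) : Set (Euc d)) := by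
    intro x
    have h := hL F (c + L.symm (x - c))
    rw [hz] at h
    exact h
  refine ⟨fun x hx => ?_, ?_⟩
  · rw [hin]
    exact hy.1 _ ((hQm x).2 hx)
  · ext x
    rw [← hFm x, hy.2]
    simp only [Set.mem_setOf_eq]
    rw [hQm, hin]

theorem gram_fac [Finite (Face Q)] (hQ : IsPolytope Q) (P : PolyLat (Face Q)) (hd : 1 ≤ P.d) : HasGram P P.d := by
  classical
  obtain ⟨c, hc, hsym⟩ := exists_ctr hQ P
  have hex : ∀ F : Face Q, ∃ y : Euc d, P.rk F = P.d → IsNormal Q c F y := by
    intro F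
    by_cases hF : P.rk F = P.d
    · obtain ⟨y, hy⟩ := exists_normal hQ P hd hc hF
      exact ⟨y, fun _ => hy⟩
    · exact ⟨0, fun h => absurd h hF⟩
  choose y hy using hex
  refine ⟨y, ?_, ?_, ?_⟩
  · intro φ hφ A B hA hB
    obtain ⟨L, hL⟩ := hsym φ hφ
    have key : ∀ F : Face Q, P.rk F = P.d → y (φ F) = L (y F) := by
      intro F hF
      have hF' : P.rk (φ F) = P.d := by rw [rk_auto]; exact hF
      exact normal_unique hQ P hc hF' (hy _ hF') (gf_normal P hL (hy F hF))
    rw [key A hA, key B hB]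
    exact L.inner_map_map _ _
  · by_contra hne
    have h1 : (Submodule.span ℝ (y '' {A | P.rk A = P.d}))ᗮ ≠ ⊥ := by
      rw [Ne, Submodule.orthogonal_eq_bot_iff]
      exact hne
    obtain ⟨w, hw, hw0⟩ := Submodule.exists_mem_ne_zero_of_ne_bot h1
    have hort : ∀ F : Face Q, P.rk F = P.d → inner ℝ w (y F) = 0 := by
      intro F hF
      rw [real_inner_comm]
      exact (Submodule.mem_orthogonal _ w).1 hw (y F) (Submodule.subset_span ⟨F, hF, rfl⟩)
    have hall : ∀ s : ℝ, c + s • w ∈ Q := by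
      intro s
      refine hrep hQ P hc (y := y) (fun F hF => hy F hF) _ fun F hF => ?_
      rw [add_sub_cancel_left, inner_smul_left, hort F hF, mul_zero]
      exact zero_le_one
    have hcomp : IsCompact Q := by
      have h := (face_compact hQ P.top).1
      rwa [top_eq] at h
    obtain ⟨R, hR⟩ := hcomp.isBounded.exists_norm_le
    have hwn : 0 < ‖w‖ := norm_pos_iff.2 hw0
    have h2 := hR _ (hall ((R + ‖c‖ + 1) / ‖w‖))
    have h0 : 0 ≤ R := (norm_nonneg _).trans (hR c (by simpa using hall 0))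
    have h3 : ‖((R + ‖c‖ + 1) / ‖w‖) • w‖ = R + ‖c‖ + 1 := by
      rw [norm_smul, Real.norm_of_nonneg (by positivity)]
      field_simp
    have h4 : ‖((R + ‖c‖ + 1) / ‖w‖) • w‖ ≤ ‖c + ((R + ‖c‖ + 1) / ‖w‖) • w‖ + ‖c‖ := by
      have := norm_sub_le (c + ((R + ‖c‖ + 1) / ‖w‖) • w) c
      rwa [add_sub_cancel_left] at this
    rw [h3] at h4
    linarith
  · rintro φ ⟨L, hL⟩
    have hinner : ∀ F : Face Q, P.rk F = P.d → ∀ x : Euc d,
        inner ℝ (c + L (x - c) - c) (y (φ F)) = inner ℝ (x - c) (y F) := by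
      intro F hF x
      rw [add_sub_cancel_left, ← hL F hF]
      exact L.inner_map_map _ _
    have hQm : ∀ x : Euc d, x ∈ Q ↔ c + L (x - c) ∈ Q := by
      intro x
      constructor
      · intro hx
        refine hrep hQ P hc (y := y) (fun F hF => hy F hF) _ fun F hF => ?_
        have hF' : P.rk (φ.symm F) = P.d := by rw [rk_auto]; exact hF
        have h := hinner (φ.symm F) hF' x
        rw [φ.apply_symm_apply] at h
        rw [h]
        exact (hy _ hF').1 x hx
      · intro hx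
        refine hrep hQ P hc (y := y) (fun F hF => hy F hF) _ fun F hF => ?_
        rw [← hinner F hF x]
        exact (hy _ (by rw [rk_auto]; exact hF)).1 _ hx
    have hFm : ∀ F : Face Q, P.rk F = P.d → ∀ x : Euc d,
        x ∈ (F : Set (Euc d)) ↔ c + L (x - c) ∈ ((φ F : Face Q) : Set (Euc d)) := by
      intro F hF x
      have hF' : P.rk (φ F) = P.d := by rw [rk_auto]; exact hF
      rw [(hy F hF).2, (hy _ hF').2]
      simp only [Set.mem_setOf_eq]
      rw [hinner F hF x, ← hQm x]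
    have hchar : ∀ (G : Face Q) (x : Euc d), x ∈ (G : Set (Euc d)) ↔
        x ∈ Q ∧ ∀ F : Face Q, P.rk F = P.d → G ≤ F → x ∈ (F : Set (Euc d)) := by
      intro G x
      constructor
      · intro hx
        exact ⟨G.2.subset hx, fun F _ hGF => (le_iff.1 hGF) hx⟩
      · rintro ⟨hx, h⟩
        exact face_inter P G hx h
    refine mem_Gm P c L φ fun G x => ?_
    rw [hchar G x, hchar (φ G) (c + L (x - c)), ← hQm x]
    constructor
    · rintro ⟨hx, h⟩
      refine ⟨hx, fun F hF hGF => ?_⟩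
      have hF' : P.rk (φ.symm F) = P.d := by rw [rk_auto]; exact hF
      have h1 := h (φ.symm F) hF' (by
        have := φ.symm.monotone hGF
        rwa [φ.symm_apply_apply] at this)
      have h2 := (hFm _ hF' x).1 h1
      rwa [φ.apply_symm_apply] at h2
    · rintro ⟨hx, h⟩
      refine ⟨hx, fun F hF hGF => ?_⟩
      exact (hFm F hF x).2 (h (φ F) (by rw [rk_auto]; exact hF) (φ.monotone hGF))

end Pool.Agent.H11.GK
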