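import Pool.Agent.H11.GK.Defs

/-!
# Module GQuo: the quotient of the flags by a group of automorphisms

`exists_quo`: copy of the construction of `q` in `one_orbit_sharp` (`Pool/Agent/H11/KS/Main.lean`) with `L ≃o L` replaced by a subgroup `Γ` (an orbit relation of the subgroup: `e x ∈ orbit Γ (e y)` iff `x = y.act g` for
some `g ∈ Γ`, by `flagEquiv`; `act_rho`).
`geomOrbits_eq`: `GeomEquiv Q Φ Ψ ↔ ∃ φ ∈ Gm Q, φ • Φ = Ψ`, so `Quot (GeomEquiv Q)` and the quotient by the orbit relation of `Gm Q` are the same (compare `Pool/Agent/H73/TO/Geo.lean`).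
-/

set_option autoImplicit false

namespace Pool.Agent.H11.GK

open H63.KO KOrbit

private theorem act_inj {L : Type} [PartialOrder L] {P : PolyLat L} (g : L ≃o L) :
    Function.Injective (PolyLat.Fl.act (P := P) g) := by
  intro x y h
  apply PolyLat.Fl.ext'
  intro i
  have h1 : g (x.f i) = g (y.f i) := by
    have := congrArg (fun z : P.Fl => z.f i) h
    exact this
  exact g.injective h1

theorem exists_quo {L : Type} [PartialOrder L] [Finite L] (P : PolyLat L) (Γ : Subgroup (L ≃o L)) :
    Finite (MulAction.orbitRel.Quotient Γ (Flag L)) ∧ Nonempty (MulAction.orbitRel.Quotient Γ (Flag L)) ∧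
    ∃ q : P.sys.Quo (MulAction.orbitRel.Quotient Γ (Flag L)), ∀ x y : P.Fl, q.π x = q.π y ↔ ∃ g ∈ Γ, x = y.act g := by
  have hfl : Finite P.Fl := finite_fl P
  obtain ⟨e, he⟩ := flagEquiv P
  have hFlag : Finite (Flag L) := Finite.of_equiv _ e
  have hrel : ∀ x y : P.Fl,
      ((⟦e x⟧ : MulAction.orbitRel.Quotient Γ (Flag L)) = ⟦e y⟧) ↔
        ∃ g ∈ Γ, x = y.act g := by
    intro x y
    rw [Quotient.eq]
    constructor
    · intro h
      obtain ⟨g, hg⟩ : e x ∈ MulAction.orbit Γ (e y) := h
      refine ⟨g.1, g.2, e.injective ?_⟩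
      rw [he]
      exact hg.symm
    · rintro ⟨g, hgΓ, rfl⟩
      show e (y.act g) ∈ MulAction.orbit Γ (e y)
      exact ⟨⟨g, hgΓ⟩, (he g y).symm⟩
  let π : P.Fl → MulAction.orbitRel.Quotient Γ (Flag L) := fun φ => ⟦e φ⟧
  have hsurj : Function.Surjective π := by
    intro v
    induction v using Quotient.inductionOn with
    | h c => exact ⟨e.symm c, by simp [π]⟩
  have hfinV : Finite (MulAction.orbitRel.Quotient Γ (Flag L)) :=
    Finite.of_surjective π hsurj
  have hneV : Nonempty (MulAction.orbitRel.Quotient Γ (Flag L)) := by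
    obtain ⟨c⟩ : Nonempty (Flag L) := inferInstance
    exact ⟨⟦c⟧⟩
  let q : P.sys.Quo (MulAction.orbitRel.Quotient Γ (Flag L)) :=
    { π := π
      s := fun i v => π (rho i (Function.surjInv hsurj v))
      surj := hsurj
      hs := by
        intro i x
        have h1 : π (Function.surjInv hsurj (π x)) = π x := Function.surjInv_eq hsurj (π x)
        obtain ⟨g, hgΓ, hg⟩ := (hrel _ _).1 h1
        show π (rho i x) = π (rho i (Function.surjInv hsurj (π x)))
        rw [hg, ← act_rho]
        exact ((hrel _ _).2 ⟨g, hgΓ, rfl⟩).symm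
      hper := by
        intro i x y h
        obtain ⟨g, hgΓ, rfl⟩ := (hrel _ _).1 h
        unfold FSys.per
        rw [Function.minimalPeriod_eq_minimalPeriod_iff]
        intro n
        have hc : ∀ z : P.Fl, (fun z => P.sys.ρ i (P.sys.ρ (i + 1) z)) (z.act g) =
            ((fun z => P.sys.ρ i (P.sys.ρ (i + 1) z)) z).act g := by
          intro z
          show rho i (rho (i + 1) (z.act g)) = (rho i (rho (i + 1) z)).act g
          rw [act_rho, act_rho]
        have hit : ∀ (n : ℕ) (z : P.Fl), (fun z => P.sys.ρ i (P.sys.ρ (i + 1) z))^[n] (z.act g) =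
            ((fun z => P.sys.ρ i (P.sys.ρ (i + 1) z))^[n] z).act g := by
          intro n
          induction n with
          | zero => intro z; rfl
          | succ n ih =>
            intro z
            rw [Function.iterate_succ_apply, Function.iterate_succ_apply]
            exact (congrArg _ (hc z)).trans (ih _)
        unfold Function.IsPeriodicPt Function.IsFixedPt
        rw [hit]
        exact ⟨fun h => act_inj g h, fun h => by rw [h]⟩ }
  exact ⟨hfinV, hneV, q, hrel⟩

theorem geomOrbits_eq {d : ℕ} (Q : Set (Euc d)) :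
    geomOrbits Q = Nat.card (MulAction.orbitRel.Quotient (Gm Q) (Flag (Face Q))) := by
  have hrel : GeomEquiv Q = (MulAction.orbitRel (Gm Q) (Flag (Face Q))).r := by
    funext Φ Ψ
    apply propext
    constructor
    · rintro ⟨g, hg, φ, hφ, h⟩
      refine (MulAction.orbitRel (Gm Q) (Flag (Face Q))).symm ?_
      exact ⟨⟨φ, g, hg, hφ⟩, h⟩
    · intro h
      obtain ⟨⟨φ, g, hg, hφ⟩, h'⟩ := (MulAction.orbitRel (Gm Q) (Flag (Face Q))).symm h
      exact ⟨g, hg, φ, hφ, h'⟩
  unfold geomOrbits
  rw [hrel]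
  rfl

end Pool.Agent.H11.GK
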