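import Pool.Agent.H11.GK.Ctr

/-!
# Module GVert: the Gram data of the vertices

`u A = v A - c` (`atom_point`, `exists_ctr`). (i) for `φ ∈ Gm Q` with `L`: `c + L (v A - c) ∈ φ A = {v (φ A)}` (`rk_auto`), so `u (φ A) = L (u A)`; `L` preserves inner products.
(ii) if the span of the `u A` is not everything there is `w ≠ 0` orthogonal to all of them, so `⟪w, x - c⟫ = 0` for all `x ∈ Q` (`face_hull` for `P.top`), but `c` is an interior point.
(iii) `L (u A) = u (φ A)`: `x ↦ c + L (x - c)` is affine and maps `v A` to `v (φ A)`; `F = conv {v A | A ≤ F}` (`face_hull`), so the image of `F` is `conv {v (φ A) | A ≤ F} = conv {v B | B ≤ φ F} = φ F`; `mem_Gm`.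
-/

set_option autoImplicit false

namespace Pool.Agent.H11.GK

open H63.KO KOrbit

variable {d : ℕ} {Q : Set (Euc d)}

theorem gram_vert [Finite (Face Q)] (hQ : IsPolytope Q) (P : PolyLat (Face Q)) : HasGram P 1 := by
  classical
  have hex : ∀ A : Face Q, ∃ x : Euc d, P.rk A = 1 → (A : Set (Euc d)) = {x} := by
    intro A
    by_cases hA : P.rk A = 1
    · obtain ⟨x, hx⟩ := atom_point hQ P hA
      exact ⟨x, fun _ => hx⟩
    · exact ⟨0, fun h => absurd h hA⟩
  choose v hv using hex
  obtain ⟨c, hc, hsym⟩ := exists_ctr hQ P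
  refine ⟨fun A => v A - c, ?_, ?_, ?_⟩
  · intro φ hφ A B hA hB
    obtain ⟨L, hL⟩ := hsym φ hφ
    have h1 : ∀ A : Face Q, P.rk A = 1 → L (v A - c) = v (φ A) - c := by
      intro A hA
      have h2 : v A ∈ (A : Set (Euc d)) := by
        rw [hv A hA]
        exact Set.mem_singleton _
      have h3 := (hL A (v A)).1 h2
      rw [hv (φ A) (by rw [rk_auto]; exact hA)] at h3
      have h4 : c + L (v A - c) = v (φ A) := h3
      rw [← h4, add_sub_cancel_left]
    show inner ℝ (v (φ A) - c) (v (φ B) - c) = inner ℝ (v A - c) (v B - c)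
    rw [← h1 A hA, ← h1 B hB, L.inner_map_map]
  · rw [← Submodule.orthogonal_eq_bot_iff, Submodule.eq_bot_iff]
    intro w hw
    rw [Submodule.mem_orthogonal'] at hw
    have h1 : Q ⊆ {x : Euc d | inner ℝ w x = inner ℝ w c} := by
      have h2 := face_hull hQ P hv P.top
      rw [top_eq P] at h2
      rw [h2]
      refine convexHull_min ?_ ?_
      · rintro _ ⟨A, ⟨hA, -⟩, rfl⟩
        have h3 := hw (v A - c) (Submodule.subset_span ⟨A, hA, rfl⟩)
        rw [inner_sub_right] at h3
        show inner ℝ w (v A) = inner ℝ w c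
        linarith
      · exact convex_hyperplane (IsLinearMap.mk (fun x y => inner_add_right w x y)
          (fun t x => by rw [inner_smul_right]; rfl)) _
    by_contra hw0
    have h4 : Filter.Tendsto (fun t : ℝ => c + t • w) (nhds 0) (nhds c) := by
      have h5 : Continuous (fun t : ℝ => c + t • w) := by fun_prop
      have h6 := h5.tendsto 0
      simpa using h6
    have h7 : ∀ᶠ t : ℝ in nhds 0, c + t • w ∈ Q :=
      h4.eventually (mem_interior_iff_mem_nhds.1 hc)
    have h8 : ∀ᶠ t : ℝ in nhdsWithin 0 {0}ᶜ, c + t • w ∈ Q := h7.filter_mono nhdsWithin_le_nhds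
    obtain ⟨t, ht1, ht2⟩ := (h8.and self_mem_nhdsWithin).exists
    have h9 : inner ℝ w (c + t • w) = inner ℝ w c := h1 ht1
    rw [inner_add_right, inner_smul_right] at h9
    have h10 : t * inner ℝ w w = 0 := by linarith
    rcases mul_eq_zero.1 h10 with h11 | h11
    · exact ht2 h11
    · exact hw0 (inner_self_eq_zero.1 h11)
  · rintro φ ⟨L, hL⟩
    refine mem_Gm P c L φ fun F x => ?_
    set T : Euc d →ᵃ[ℝ] Euc d :=
      L.toLinearEquiv.toLinearMap.toAffineMap + AffineMap.const ℝ (Euc d) (c - L c) with hT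
    have hTx : ∀ x, T x = c + L (x - c) := by
      intro x
      show L x + (c - L c) = c + L (x - c)
      rw [map_sub]
      abel
    have hTi : Function.Injective T := by
      intro x y hxy
      rw [hTx, hTx] at hxy
      have h1 := L.injective (add_left_cancel hxy)
      exact sub_left_injective h1
    have hTv : ∀ A : Face Q, P.rk A = 1 → T (v A) = v (φ A) := by
      intro A hA
      have h1 : L (v A - c) = v (φ A) - c := hL A hA
      rw [hTx, h1, add_sub_cancel]
    have hI : T '' (F : Set (Euc d)) = ((φ F : Face Q) : Set (Euc d)) := by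
      rw [face_hull hQ P hv F, face_hull hQ P hv (φ F), AffineMap.image_convexHull,
        ← Set.image_comp]
      congr 1
      ext y
      constructor
      · rintro ⟨A, ⟨hA, hAF⟩, rfl⟩
        exact ⟨φ A, ⟨by rw [rk_auto]; exact hA, φ.monotone hAF⟩, (hTv A hA).symm⟩
      · rintro ⟨B, ⟨hB, hBF⟩, rfl⟩
        have h1 : P.rk (φ.symm B) = 1 := by rw [rk_auto]; exact hB
        refine ⟨φ.symm B, ⟨h1, ?_⟩, ?_⟩
        · have h2 := φ.symm.monotone hBF
          rwa [φ.symm_apply_apply] at h2
        · show T (v (φ.symm B)) = v B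
          rw [hTv _ h1, φ.apply_symm_apply]
    rw [← hI, ← hTx]
    exact (hTi.mem_set_image).symm

end Pool.Agent.H11.GK
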