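import Pool.Agent.H11.GK.Defs

/-!
# Module GramL: two families of vectors with the same inner products

`T a = ∑ a x • u x`, `T' a = ∑ a x • u' x` (linear maps `(X → ℝ) → E`, `Fintype.linearCombination` or by hand). `⟪T a, T b⟫ = ⟪T' a, T' b⟫`, so `‖T a‖ = ‖T' a‖`. `T` is onto; let `R` be a linear right inverse
(`LinearMap.exists_rightInverse_of_surjective`). `L = T' ∘ R` is linear, `‖L e‖ = ‖T (R e)‖ = ‖e‖`, so a linear isometry, and onto because `E` is finite dimensional (`LinearIsometry.toLinearIsometryEquiv`).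
`L (u x) = T' (R (u x))`, and `R (u x) - δ_x` is in the kernel of `T`, so (norms) in the kernel of `T'`: `L (u x) = T' δ_x = u' x`.
-/

set_option autoImplicit false

namespace Pool.Agent.H11.GK

theorem exists_isometry {X E : Type} [Finite X] [NormedAddCommGroup E] [InnerProductSpace ℝ E] [FiniteDimensional ℝ E]
    (u u' : X → E) (h : ∀ x y, inner ℝ (u x) (u y) = inner ℝ (u' x) (u' y)) (hs : Submodule.span ℝ (Set.range u) = ⊤) :
    ∃ L : E ≃ₗᵢ[ℝ] E, ∀ x, L (u x) = u' x := by
  classical
  haveI := Fintype.ofFinite X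
  let T : (X → ℝ) →ₗ[ℝ] E := Fintype.linearCombination ℝ u
  let T' : (X → ℝ) →ₗ[ℝ] E := Fintype.linearCombination ℝ u'
  have hT : ∀ a, T a = ∑ x, a x • u x := fun a => Fintype.linearCombination_apply ℝ u a
  have hT' : ∀ a, T' a = ∑ x, a x • u' x := fun a => Fintype.linearCombination_apply ℝ u' a
  have hn : ∀ a, ‖T a‖ = ‖T' a‖ := by
    intro a
    have h1 : inner ℝ (T a) (T a) = inner ℝ (T' a) (T' a) := by
      rw [hT, hT']
      simp only [sum_inner, inner_sum, real_inner_smul_left, real_inner_smul_right, h]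
    rw [real_inner_self_eq_norm_sq, real_inner_self_eq_norm_sq] at h1
    exact (sq_eq_sq₀ (norm_nonneg _) (norm_nonneg _)).1 h1
  have hsurj : LinearMap.range T = ⊤ := by
    rw [← hs]
    exact Fintype.range_linearCombination ℝ u
  obtain ⟨R, hR⟩ := T.exists_rightInverse_of_surjective hsurj
  have hR' : ∀ e, T (R e) = e := fun e => by
    have := congrArg (fun f : E →ₗ[ℝ] E => f e) hR
    simpa using this
  let L0 : E →ₗᵢ[ℝ] E := ⟨T' ∘ₗ R, fun e => by
    show ‖T' (R e)‖ = ‖e‖
    rw [← hn, hR']⟩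
  refine ⟨L0.toLinearIsometryEquiv rfl, fun x => ?_⟩
  show T' (R (u x)) = u' x
  have h1 : T (Pi.single x 1) = u x := by
    rw [hT]
    simp [Pi.single_apply]
  have h2 : T' (Pi.single x 1) = u' x := by
    rw [hT']
    simp [Pi.single_apply]
  rw [← h2, ← sub_eq_zero, ← map_sub, ← norm_eq_zero, ← hn, map_sub, hR', h1, sub_self, norm_zero]

end Pool.Agent.H11.GK
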