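import Pool.Agent.H11.GK.DecB

/-!
# Module Pair: invariant functions of pairs of vertices are constant on combinatorial classes

`f` depends only on the classes of `x`, `y` under the colours `2, ..., D` and `f x (m x)` depends only on `m ∈ S.M` and the class `π x`. Then `f x (m x)` does not depend on `x`.
Apply `decA` / `decB` to `q n = S.p (D - n)` (`n ≤ D - 1`), `q n = 1` for `n ≥ D` (so `Cox q 0 (D-1)` or `Cox q 1 (D-1)`; `q (D-1) = S.p 1`, `Hm q D = S.M`, `Hm q (D-1)` is generated by the colours `2, ..., D`: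
call it `N`). For `n ∈ N`: `f (n x) y = f x y`, `f x (n y) = f x y` (closure induction). Three cases for `m`:
(0) `m ∈ N`: `f x (m x) = f x x =: Φ x`. `Φ (r j x) = Φ x` for `j ≥ 2`; `π (r 1 x) = π (r 2 x)` (`same`), so `Φ (r 1 x) = Φ (r 2 x) = Φ x` (`hG` with `m = 1`). `conn` (with `Z y := Φ y = Φ x`).
(1) `m = b p_1 c`: `f x (b p_1 c x) = f x (p_1 c x) = f (c x) (p_1 c x) = Φ (c x)`, `Φ z = f z (r 1 z)`. `Φ (r j z) = f (r j z) (r 1 (r j z)) = f (r j z) (r j (r 1 z)) = Φ z` for `j ≥ 3`;
`Φ (r 1 z) = Φ (r 3 z)`, `Φ (r 2 z) = Φ (r 3 z)` (`same`, `3 ≤ D - 1`, `hG`).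
(2) `m = b t`, `t = tm q (D-1)`: `f x (b t x) = f x (t x) = Φ x`; `Φ (r j x) = f (r j x) (t (r j x)) = f (r j x) (r j (t x)) = Φ x` for `j ≥ 2` (`tm_comm`), `Φ (r 1 x) = Φ (r 2 x)`.
The form of `m` does not depend on `x`, so `f x (m x) = f y (m y)` in all cases.
-/

set_option autoImplicit false

namespace Pool.Agent.H11.GK

variable {X V α : Type} {D : ℕ}

/-- the colours in reverse order -/
private def qq (S : PS X V D) (n : ℕ) : Equiv.Perm X := if n < D then S.p (D - n) else 1

private lemma qq_lt (S : PS X V D) {n : ℕ} (h : n < D) : qq S n = S.p (D - n) := if_pos h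

private lemma qq_ge (S : PS X V D) {n : ℕ} (h : D ≤ n) : qq S n = 1 := if_neg (by omega)

private lemma p_app (S : PS X V D) (i : ℕ) (x : X) : S.p i x = S.r i x := rfl

private lemma p_col (S : PS X V D) {j : ℕ} (h1 : 1 ≤ j) (h2 : j ≤ D) : S.p j = qq S (D - j) := by
  rw [qq_lt S (by omega), show D - (D - j) = j by omega]

private lemma qq_inv (S : PS X V D) (i : ℕ) : qq S i * qq S i = 1 := by
  by_cases h : i < D
  · rw [qq_lt S h]
    ext x
    exact S.inv _ x
  · rw [qq_ge S (by omega), one_mul]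

private lemma qq_comm (S : PS X V D) (i j : ℕ) (hij : i + 2 ≤ j) : qq S i * qq S j = qq S j * qq S i := by
  by_cases h : j < D
  · rw [qq_lt S h, qq_lt S (show i < D by omega)]
    ext x
    exact (S.comm (D - j) (D - i) (by omega) x).symm
  · rw [qq_ge S (show D ≤ j by omega), one_mul, mul_one]

private lemma qq_braid (S : PS X V D) (i : ℕ) (h1 : 1 ≤ i) (h2 : i + 1 ≤ D - 1) :
    qq S i * qq S (i + 1) * qq S i = qq S (i + 1) * qq S i * qq S (i + 1) := by
  rw [qq_lt S (show i < D by omega), qq_lt S (show i + 1 < D by omega)]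
  ext x
  have := S.braid (D - (i + 1)) (by omega) (by omega) x
  rw [show D - (i + 1) + 1 = D - i by omega] at this
  exact this.symm

private lemma qq_mem (S : PS X V D) {g : Equiv.Perm X} : g ∈ S.M ↔ g ∈ Hm (qq S) D := by
  unfold PS.M Hm
  have : S.p '' {i | 1 ≤ i ∧ i ≤ D} = qq S '' {i | i < D} := by
    ext g
    constructor
    · rintro ⟨i, ⟨h1, h2⟩, rfl⟩
      exact ⟨D - i, show D - i < D by omega, (p_col S h1 h2).symm⟩
    · rintro ⟨i, hi, rfl⟩
      have hi' : i < D := hi
      exact ⟨D - i, ⟨by omega, by omega⟩, (qq_lt S hi').symm⟩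
  rw [this]

private lemma phi_const (S : PS X V D) (Φ : X → α) (h : ∀ i, 1 ≤ i → i ≤ D → ∀ x, Φ (S.r i x) = Φ x)
    (x y : X) : Φ x = Φ y :=
  (S.conn (fun z => Φ x = Φ z) (fun i h1 h2 z hz => hz.trans (h i h1 h2 z).symm) x y rfl)

theorem pair_const {X V α : Type} {D : ℕ} (S : PS X V D) (hD : 4 ≤ D) (f : X → X → α)
    (hl : ∀ i, 2 ≤ i → i ≤ D → ∀ x y, f (S.r i x) y = f x y)
    (hr : ∀ i, 2 ≤ i → i ≤ D → ∀ x y, f x (S.r i y) = f x y)
    (hG : ∀ x x', S.π x = S.π x' → ∀ m ∈ S.M, f x (m x) = f x' (m x')) :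
    ∀ m ∈ S.M, ∀ x y, f x (m x) = f y (m y) := by
  classical
  -- invariance under the group generated by the colours `2, ..., D`
  have inv_l : ∀ n ∈ Hm (qq S) (D - 1), ∀ x y, f (n x) y = f x y := by
    intro n hn
    unfold Hm at hn
    induction hn using Subgroup.closure_induction with
    | mem g hg =>
      obtain ⟨i, hi, rfl⟩ := hg
      have hi' : i < D - 1 := hi
      intro x y
      rw [qq_lt S (by omega)]
      exact hl _ (by omega) (by omega) x y
    | one => intro x y; rfl
    | mul g h _ _ ig ih =>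
      intro x y
      rw [Equiv.Perm.mul_apply, ig, ih]
    | inv g _ ig =>
      intro x y
      have := ig (g⁻¹ x) y
      rw [show g (g⁻¹ x) = x from g.apply_symm_apply x] at this
      exact this.symm
  have inv_r : ∀ n ∈ Hm (qq S) (D - 1), ∀ x y, f x (n y) = f x y := by
    intro n hn
    unfold Hm at hn
    induction hn using Subgroup.closure_induction with
    | mem g hg =>
      obtain ⟨i, hi, rfl⟩ := hg
      have hi' : i < D - 1 := hi
      intro x y
      rw [qq_lt S (by omega)]
      exact hr _ (by omega) (by omega) x y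
    | one => intro x y; rfl
    | mul g h _ _ ig ih =>
      intro x y
      rw [Equiv.Perm.mul_apply, ig, ih]
    | inv g _ ig =>
      intro x y
      have := ig x (g⁻¹ y)
      rw [show g (g⁻¹ y) = y from g.apply_symm_apply y] at this
      exact this.symm
  have hp1 : S.p 1 ∈ S.M := Subgroup.subset_closure ⟨1, ⟨le_rfl, by omega⟩, rfl⟩
  -- form (0)
  have c0 : ∀ x y, f x x = f y y := by
    apply phi_const S (fun x => f x x)
    have hj : ∀ j, 2 ≤ j → j ≤ D → ∀ x, f (S.r j x) (S.r j x) = f x x := by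
      intro j h1 h2 x
      rw [hl j h1 h2, hr j h1 h2]
    intro i h1 h2 x
    rcases Nat.eq_or_lt_of_le h1 with h | h
    · subst h
      have := hG (S.r 1 x) (S.r 2 x) (S.same 1 2 le_rfl (by omega) (by omega) (by omega) x) 1 (one_mem _)
      exact this.trans (hj 2 le_rfl (by omega) x)
    · exact hj i h h2 x
  -- form (1)
  have c1 : ∀ x y, f x (S.r 1 x) = f y (S.r 1 y) := by
    apply phi_const S (fun x => f x (S.r 1 x))
    have hj : ∀ j, 3 ≤ j → j ≤ D → ∀ x, f (S.r j x) (S.r 1 (S.r j x)) = f x (S.r 1 x) := by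
      intro j h1 h2 x
      rw [hl j (by omega) h2, S.comm 1 j (by omega), hr j (by omega) h2]
    have h3 : ∀ i, 1 ≤ i → i ≤ 2 → ∀ x, f (S.r i x) (S.r 1 (S.r i x)) = f x (S.r 1 x) := by
      intro i h1 h2 x
      have := hG (S.r i x) (S.r 3 x) (S.same i 3 h1 (by omega) (by omega) (by omega) x) (S.p 1) hp1
      exact this.trans (hj 3 le_rfl (by omega) x)
    intro i h1 h2 x
    rcases Nat.lt_or_ge i 3 with h | h
    · exact h3 i h1 (by omega) x
    · exact hj i h h2 x
  have main0 : ∀ m ∈ Hm (qq S) (D - 1), ∀ x y, f x (m x) = f y (m y) := by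
    intro m hm x y
    rw [inv_r m hm, inv_r m hm]
    exact c0 x y
  have main1 : ∀ b ∈ Hm (qq S) (D - 1), ∀ c ∈ Hm (qq S) (D - 1), ∀ x y,
      f x ((b * qq S (D - 1) * c) x) = f y ((b * qq S (D - 1) * c) y) := by
    intro b hb c hc x y
    have hq : qq S (D - 1) = S.p 1 := by
      rw [qq_lt S (by omega), show D - (D - 1) = 1 by omega]
    have key : ∀ z, f z ((b * qq S (D - 1) * c) z) = f (c z) (S.r 1 (c z)) := by
      intro z
      rw [Equiv.Perm.mul_apply, Equiv.Perm.mul_apply, inv_r b hb, hq, inv_l c hc]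
      rfl
    rw [key, key]
    exact c1 _ _
  have hD1 : D - 1 + 1 = D := by omega
  intro m hm
  have hm' : m ∈ Hm (qq S) (D - 1 + 1) := by
    rw [hD1]
    exact (qq_mem S).1 hm
  rcases S.last with hlast | hlast
  · -- type A
    have hC : Cox (qq S) 0 (D - 1) := by
      refine ⟨qq_inv S, qq_comm S, fun i _ h2 => ?_⟩
      rcases Nat.eq_zero_or_pos i with rfl | hi
      · rw [qq_lt S (show 0 < D by omega), qq_lt S (show 0 + 1 < D by omega)]
        ext x
        exact (hlast x).symm
      · exact qq_braid S i hi h2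
    rcases decA hC le_rfl hm' with h | ⟨b, hb, c, hc, rfl⟩
    · exact main0 m h
    · exact main1 b hb c hc
  · -- type B
    have hC : Cox (qq S) 1 (D - 1) := ⟨qq_inv S, qq_comm S, fun i h1 h2 => qq_braid S i h1 h2⟩
    have h4 : qq S 0 * qq S 1 * qq S 0 * qq S 1 = qq S 1 * qq S 0 * qq S 1 * qq S 0 := by
      rw [qq_lt S (show 0 < D by omega), qq_lt S (show 1 < D by omega)]
      ext x
      exact (hlast x).symm
    rcases decB hC h4 le_rfl hm' with h | ⟨b, hb, c, hc, rfl⟩ | ⟨b, hb, rfl⟩
    · exact main0 m h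
    · exact main1 b hb c hc
    · have ht : tm (qq S) (D - 1) ∈ S.M := by
        rw [qq_mem S]
        have := tm_mem (qq S) (D - 1)
        rwa [hD1] at this
      have c2 : ∀ x y, f x (tm (qq S) (D - 1) x) = f y (tm (qq S) (D - 1) y) := by
        apply phi_const S (fun x => f x (tm (qq S) (D - 1) x))
        have hj : ∀ j, 2 ≤ j → j ≤ D → ∀ x,
            f (S.r j x) (tm (qq S) (D - 1) (S.r j x)) = f x (tm (qq S) (D - 1) x) := by
          intro j h1 h2 x
          have hg : S.p j ∈ Hm (qq S) (D - 1) := by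
            rw [p_col S (by omega) h2]
            exact Subgroup.subset_closure ⟨D - j, show D - j < D - 1 by omega, rfl⟩
          have hc := tm_comm hC h4 le_rfl hg
          have hc' : tm (qq S) (D - 1) (S.r j x) = S.r j (tm (qq S) (D - 1) x) :=
            congrArg (fun g : Equiv.Perm X => g x) hc
          rw [hl j h1 h2, hc', hr j h1 h2]
        intro i h1 h2 x
        rcases Nat.eq_or_lt_of_le h1 with h | h
        · subst h
          have := hG (S.r 1 x) (S.r 2 x) (S.same 1 2 le_rfl (by omega) (by omega) (by omega) x) _ ht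
          exact this.trans (hj 2 le_rfl (by omega) x)
        · exact hj i h h2 x
      intro x y
      rw [Equiv.Perm.mul_apply, Equiv.Perm.mul_apply, inv_r b hb, inv_r b hb]
      exact c2 x y

end Pool.Agent.H11.GK
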