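import Pool.Agent.H11.GK.Typ
import Pool.Agent.H11.GK.Pair
import Pool.Agent.H11.GK.GramL
import Pool.Agent.H11.GK.GQuo
import Pool.Agent.H11.GK.GVert
import Pool.Agent.H11.GK.GFac

/-!
# GK.Fin : a convex `d`-polytope with at most `d - 29` flag orbits under its symmetry group is regular (glue)
-/

set_option autoImplicit false

namespace Pool.Agent.H11.GK

open H63.KO KOrbit Pool.Agent.H11.KS

variable {d : ℕ} {Q : Set (Euc d)}

section Rel

variable {X : Type} [Finite X] {S : FSys X}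

/-- the braid relation from period 3 -/
theorem rel3 {i : ℕ} (h : ∀ x, S.per i x = 3) (x : X) :
    S.ρ i (S.ρ (i + 1) (S.ρ i x)) = S.ρ (i + 1) (S.ρ i (S.ρ (i + 1) x)) := by
  have h1 := S.per_iter i (S.ρ (i + 1) (S.ρ i (S.ρ (i + 1) x)))
  rw [h] at h1
  have h2 : S.ρ i (S.ρ (i + 1) (S.ρ i (S.ρ (i + 1) (S.ρ i (S.ρ (i + 1)
      (S.ρ (i + 1) (S.ρ i (S.ρ (i + 1) x)))))))) = S.ρ (i + 1) (S.ρ i (S.ρ (i + 1) x)) := h1
  rw [S.inv, S.inv, S.inv] at h2
  exact h2

/-- the relation from period 4 -/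
theorem rel4 {i : ℕ} (h : ∀ x, S.per i x = 4) (x : X) :
    S.ρ i (S.ρ (i + 1) (S.ρ i (S.ρ (i + 1) x))) = S.ρ (i + 1) (S.ρ i (S.ρ (i + 1) (S.ρ i x))) := by
  have h1 := S.per_iter i (S.ρ (i + 1) (S.ρ i (S.ρ (i + 1) (S.ρ i x))))
  rw [h] at h1
  have h2 : S.ρ i (S.ρ (i + 1) (S.ρ i (S.ρ (i + 1) (S.ρ i (S.ρ (i + 1) (S.ρ i (S.ρ (i + 1)
      (S.ρ (i + 1) (S.ρ i (S.ρ (i + 1) (S.ρ i x))))))))))) = S.ρ (i + 1) (S.ρ i (S.ρ (i + 1) (S.ρ i x))) := h1
  rw [S.inv, S.inv, S.inv, S.inv] at h2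
  exact h2

end Rel

/-- the glue: `PS` data on the flags with the class map of the symmetry group, and Gram data at the rank `j` -/
theorem glue [Finite (Face Q)] (P : PolyLat (Face Q)) {V : Type} (q : P.sys.Quo V) [Finite V]
    (hq : ∀ x y : P.Fl, q.π x = q.π y ↔ ∃ g ∈ Gm Q, x = y.act g)
    (hreg : ∀ x y : P.Fl, ∃ θ : P.Fl ≃ P.Fl, (∀ i z, θ (P.sys.ρ i z) = P.sys.ρ i (θ z)) ∧ θ x = y)
    {D j : ℕ} (hD : 4 ≤ D) (S : PS P.Fl V D) (hSπ : S.π = q.π) (hj : j ≤ P.d + 1)
    (hr : ∀ i, 2 ≤ i → i ≤ D → ∀ x, (S.r i x).f j = x.f j)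
    (hρ : ∀ i, ∃ k, ∀ x, S.r i x = P.sys.ρ k x)
    (hG : HasGram P j) : ∀ x y : P.Fl, q.π x = q.π y := by
  classical
  obtain ⟨u, hu1, hu2, hu3⟩ := hG
  have hfin : Finite P.Fl := finite_fl P
  -- the pair function
  obtain ⟨f, hf⟩ : ∃ f : P.Fl → P.Fl → ℝ, ∀ x y, f x y = inner ℝ (u (x.f j)) (u (y.f j)) := ⟨_, fun _ _ => rfl⟩
  have hM : ∀ m ∈ S.M, ∀ (g : Face Q ≃o Face Q) (x : P.Fl), m (x.act g) = (m x).act g := by
    intro m hm g
    unfold PS.M at hm
    induction hm using Subgroup.closure_induction with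
    | mem m hm =>
      obtain ⟨i, -, rfl⟩ := hm
      intro x
      obtain ⟨k, hk⟩ := hρ i
      show S.r i (x.act g) = (S.r i x).act g
      rw [hk, hk]
      exact (act_rho g k x).symm
    | one => intro x; rfl
    | mul a b _ _ ha hb =>
      intro x
      rw [Equiv.Perm.mul_apply, Equiv.Perm.mul_apply, hb, ha]
    | inv a _ ha =>
      intro x
      rw [Equiv.Perm.inv_eq_iff_eq, ha]
      simp
  have hθM : ∀ m ∈ S.M, ∀ (θ : P.Fl ≃ P.Fl), (∀ i z, θ (P.sys.ρ i z) = P.sys.ρ i (θ z)) →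
      ∀ x, θ (m x) = m (θ x) := by
    intro m hm θ hθ
    unfold PS.M at hm
    induction hm using Subgroup.closure_induction with
    | mem m hm =>
      obtain ⟨i, -, rfl⟩ := hm
      intro x
      obtain ⟨k, hk⟩ := hρ i
      show θ (S.r i x) = S.r i (θ x)
      rw [hk, hk]
      exact hθ k x
    | one => intro x; rfl
    | mul a b _ _ ha hb =>
      intro x
      rw [Equiv.Perm.mul_apply, Equiv.Perm.mul_apply, ha, hb]
    | inv a _ ha =>
      intro x
      rw [Equiv.Perm.eq_inv_iff_eq, ← ha]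
      simp
  have hconst := pair_const S hD f
    (fun i h1 h2 x y => by rw [hf, hf, hr i h1 h2])
    (fun i h1 h2 x y => by rw [hf, hf, hr i h1 h2])
    (fun x x' hxx m hm => by
      rw [hSπ, hq] at hxx
      obtain ⟨g, hg, rfl⟩ := hxx
      rw [hM m hm, hf, hf]
      exact hu1 g hg _ _ (by rw [x'.rk hj]) (by rw [(m x').rk hj]))
  -- every flag is reached by `S.M`
  have hreach : ∀ x y : P.Fl, ∃ m ∈ S.M, y = m x := by
    intro x y
    refine S.conn (fun y => ∃ m ∈ S.M, y = m x) ?_ x y ⟨1, S.M.one_mem, rfl⟩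
    rintro i h1 h2 _ ⟨m, hm, rfl⟩
    exact ⟨S.p i * m, S.M.mul_mem (Subgroup.subset_closure ⟨i, ⟨h1, h2⟩, rfl⟩) hm, rfl⟩
  intro x y
  obtain ⟨θ, hθ, hxy⟩ := hreg y x
  obtain ⟨g, hg⟩ := auto_of_perm θ hθ
  have hgram : ∀ a b : P.Fl, inner ℝ (u (a.f j)) (u (b.f j)) = inner ℝ (u (g (a.f j))) (u (g (b.f j))) := by
    intro a b
    obtain ⟨m, hm, rfl⟩ := hreach a b
    have h1 := hconst m hm a (θ a)
    rw [← hθM m hm θ hθ, hf, hf, hg, hg] at h1
    exact h1
  have hspan : Submodule.span ℝ (Set.range fun a : P.Fl => u (a.f j)) = ⊤ := by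
    rw [← hu2]
    congr 1
    ext w
    constructor
    · rintro ⟨a, rfl⟩
      exact ⟨a.f j, a.rk hj, rfl⟩
    · rintro ⟨A, hA, rfl⟩
      obtain ⟨φ, hφ⟩ := exists_flag (P := P) A
      have hA' : P.rk A = j := hA
      rw [hA'] at hφ
      refine ⟨φ, ?_⟩
      show u (φ.f j) = u A
      rw [hφ]
  obtain ⟨L, hL⟩ := exists_isometry (fun a : P.Fl => u (a.f j)) (fun a : P.Fl => u (g (a.f j))) hgram hspan
  have hgG : g ∈ Gm Q := by
    refine hu3 g ⟨L, fun A hA => ?_⟩
    obtain ⟨φ, hφ⟩ := exists_flag (P := P) A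
    have h1 := hL φ
    rw [hA] at hφ
    simp only [hφ] at h1
    exact h1
  rw [hq]
  refine ⟨g, hgG, ?_⟩
  rw [← hg, hxy]

theorem geom_one (d : ℕ) (Q : Set (Euc d)) (hQ : IsPolytope Q) (hk : geomOrbits Q + 29 ≤ d) :
    geomOrbits Q = 1 := by
  classical
  obtain ⟨hfin, P, hP⟩ : Finite (Face Q) ∧ ∃ P : PolyLat (Face Q), P.d = d := by
    obtain ⟨⟨T, rfl⟩, hint⟩ := hQ
    obtain ⟨hfin, P, hP⟩ := polytope_lat T hint
    exact ⟨hfin, P, by rw [hP, finrank_euclideanSpace, Fintype.card_fin]⟩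
  have hfl : Finite P.Fl := finite_fl P
  rw [geomOrbits_eq] at hk ⊢
  obtain ⟨hfinV, hneV, q, hq⟩ := exists_quo P (Gm Q)
  have hsd : P.sys.d = d := hP
  have hd : Nat.card (MulAction.orbitRel.Quotient (Gm Q) (Flag (Face Q))) + 29 ≤ P.sys.d := by rw [hsd]; exact hk
  have hcard : 0 < Nat.card (MulAction.orbitRel.Quotient (Gm Q) (Flag (Face Q))) := Nat.card_pos
  have hd30 : 30 ≤ d := by omega
  have hneX : Nonempty P.Fl := by
    obtain ⟨v⟩ := hneV
    obtain ⟨x, -⟩ := q.surj v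
    exact ⟨x⟩
  obtain ⟨t1, t2, t3, t4⟩ := typ q hd
  have hper := core_sharp P.sys q hd
  have hreg : ∀ x y : P.Fl, ∃ θ : P.Fl ≃ P.Fl, (∀ i z, θ (P.sys.ρ i z) = P.sys.ρ i (θ z)) ∧ θ x = y :=
    fun x y => regular P.sys (by omega) hper x y
  have hconn : ∀ (Z : P.Fl → Prop), (∀ i, 1 ≤ i → i ≤ d → ∀ x, Z x → Z (P.sys.ρ i x)) → ∀ x y, Z x → Z y := by
    intro Z hZ x y hx
    have h := P.sys.conn x y
    induction h with
    | refl => exact hx
    | tail _ h2 ih =>
      obtain ⟨i, h3, h4, rfl⟩ := h2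
      exact hZ i h3 (by omega) _ ih
  have hcomm : ∀ i j, i + 2 ≤ j → ∀ x, P.sys.ρ i (P.sys.ρ j x) = P.sys.ρ j (P.sys.ρ i x) := P.sys.comm
  have hs : ∀ i, 2 ≤ i → i + 1 ≤ d → ∀ x, q.π (P.sys.ρ i x) = q.s 2 (q.π x) := by
    intro i h1 h2 x
    rw [q.hs, t2 i h1 (by omega)]
  have key : ∀ x y : P.Fl, q.π x = q.π y := by
    rcases t3 with ⟨t3, t3'⟩ | t3
    · -- the vertices
      have hlast : (∀ x, P.sys.ρ (d - 1) (P.sys.ρ d (P.sys.ρ (d - 1) x)) = P.sys.ρ d (P.sys.ρ (d - 1) (P.sys.ρ d x))) ∨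
          (∀ x, P.sys.ρ (d - 1) (P.sys.ρ d (P.sys.ρ (d - 1) (P.sys.ρ d x))) =
            P.sys.ρ d (P.sys.ρ (d - 1) (P.sys.ρ d (P.sys.ρ (d - 1) x)))) := by
        have e : d - 1 + 1 = d := by omega
        rcases t4 with ⟨t4, -⟩ | t4
        · rw [hsd] at t4
          left
          intro x
          have := rel3 t4 x
          rwa [e] at this
        · rw [hsd] at t4
          right
          intro x
          have := rel4 t4 x
          rwa [e] at this
      have hs' : ∀ i, 1 ≤ i → i + 1 ≤ d → ∀ x, q.π (P.sys.ρ i x) = q.s 2 (q.π x) := by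
        intro i h1 h2 x
        by_cases h : i = 1
        · subst h
          rw [q.hs, t3']
        · exact hs i (by omega) h2 x
      let S : PS P.Fl _ d :=
        { r := P.sys.ρ
          π := q.π
          inv := P.sys.inv
          comm := P.sys.comm
          braid := by
            intro i h1 h2 x
            by_cases h : i = 1
            · subst h
              exact rel3 t3 x
            · exact rel3 (t1 i (by omega) (by omega)) x
          last := hlast
          conn := hconn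
          same := fun i j h1 h2 h3 h4 x => by rw [hs' i h1 h2, hs' j h3 h4] }
      exact glue P q hq hreg (D := d) (j := 1) (by omega) S rfl (by omega)
        (fun i h1 h2 x => rho_ne (by omega) x) (fun i => ⟨i, fun x => rfl⟩) (gram_vert hQ P)
    · -- the facets
      have t4' : (∀ x, P.sys.per (P.sys.d - 1) x = 3) ∧ ∀ v, q.s P.sys.d v = q.s 2 v := by
        rcases t4 with t4 | t4
        · exact t4
        · exact (no_both_four P.sys (by omega) t3 t1 t4).elim
      obtain ⟨t4, t5⟩ := t4'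
      rw [hsd] at t4 t5
      have hs' : ∀ i, 2 ≤ i → i ≤ d → ∀ x, q.π (P.sys.ρ i x) = q.s 2 (q.π x) := by
        intro i h1 h2 x
        by_cases h : i = d
        · subst h
          rw [q.hs, t5]
        · exact hs i h1 (by omega) x
      let S : PS P.Fl _ d :=
        { r := fun i => P.sys.ρ (d + 1 - i)
          π := q.π
          inv := fun i => P.sys.inv _
          comm := by
            intro i j hij x
            by_cases h : j ≤ d + 1
            · exact (P.sys.comm (d + 1 - j) (d + 1 - i) (by omega) x).symm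
            · have e : d + 1 - j = 0 := by omega
              rw [e, P.sys.out 0 (by omega), P.sys.out 0 (by omega)]
          braid := by
            intro i h1 h2 x
            have e : d + 1 - i = (d + 1 - (i + 1)) + 1 := by omega
            rw [e]
            by_cases h : i = 1
            · subst h
              have e' : d + 1 - (1 + 1) = d - 1 := by omega
              rw [e']
              exact (rel3 t4 x).symm
            · exact (rel3 (t1 (d + 1 - (i + 1)) (by omega) (by omega)) x).symm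
          last := by
            right
            intro x
            have e1 : d + 1 - (d - 1) = 2 := by omega
            have e2 : d + 1 - d = 1 := by omega
            rw [e1, e2]
            exact (rel4 t3 x).symm
          conn := by
            intro Z hZ x y hx
            refine hconn Z (fun i h1 h2 z hz => ?_) x y hx
            have h3 := hZ (d + 1 - i) (by omega) (by omega) z hz
            have e : d + 1 - (d + 1 - i) = i := by omega
            rwa [e] at h3
          same := fun i j h1 h2 h3 h4 x => by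
            rw [hs' _ (by omega) (by omega), hs' _ (by omega) (by omega)] }
      refine glue P q hq hreg (D := d) (j := P.d) (by omega) S rfl (by omega)
        (fun i h1 h2 x => rho_ne (by omega) x) (fun i => ⟨d + 1 - i, fun x => rfl⟩) (gram_fac hQ P (by omega))
  rw [Nat.card_eq_one_iff_unique]
  refine ⟨⟨fun a b => ?_⟩, hneV⟩
  obtain ⟨x, rfl⟩ := q.surj a
  obtain ⟨y, rfl⟩ := q.surj b
  exact key x y

end Pool.Agent.H11.GK
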