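import Pool.Agent.H11.GK.Aff

/-!
# Module Typ: the periods and the classes

`exists_block_sharp` (`KS/Blk.lean`) gives a block `(a, b)`. Extend it to the right by `right_step` (`H63/KO/Right.lean`) until `b + 1 ≥ S.d`; the same for the reversed
system (`exists_rev`, `H63/KO/Rev.lean`: it gives only the periods, so for the statement on `q.s` to the left argue directly: if `q.s i = q.s (i+1)` on `V`, `2 ≤ i`, and all periods are constant (`core_sharp`),
`per (i-1) = 3`, then `q.s (i-1)` commutes with `q.s (i+1) = q.s i`, so `q.s (i-1) = q.s i` by `FSys.Quo.eq_of_three`). All periods are constant by `core_sharp`; `FSys.string` (`R = univ`, `m j = S.per (a + j) x₀`)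
for five consecutive colours `a, ..., a+4` gives `per (a+1) = per (a+2) = 3` and `per a, per (a+3) ≤ 4`: so `per i = 3` for `2 ≤ i ≤ d - 2` and `per 1, per (d-1) ≤ 4`; `≥ 3` by `FSys.three_le_per`.
Then `q.s i = q.s (i+1)` spreads from the block to all `2 ≤ i`, `i + 1 ≤ d - 1` in both directions by `eq_of_three` as above, and to `q.s 1 = q.s 2` if `per 1 = 3`, `q.s d = q.s (d-1)` if `per (d-1) = 3`.
-/

set_option autoImplicit false

namespace Pool.Agent.H11.GK

open H63.KO

variable {X : Type} [Finite X] {S : FSys X} {V : Type}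

private theorem step_right (q : S.Quo V) {i : ℕ} (h : ∀ v, q.s i v = q.s (i + 1) v)
    (h3 : ∀ x, S.per (i + 1) x = 3) : ∀ v, q.s (i + 1) v = q.s (i + 1 + 1) v := by
  intro v
  have h3' : q.per (i + 1) v = 3 := h3 _
  exact q.eq_of_three h3' (fun w => by
    rw [← h (q.s (i + 1 + 1) w), ← h w]
    exact q.s_comm (Or.inl (by omega)) w)

private theorem step_left (q : S.Quo V) {i : ℕ} (h : ∀ v, q.s (i + 1) v = q.s (i + 1 + 1) v)
    (h3 : ∀ x, S.per i x = 3) : ∀ v, q.s i v = q.s (i + 1) v := by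
  intro v
  have h3' : q.per i v = 3 := h3 _
  exact q.eq_of_three h3' (fun w => by
    rw [h w, h (q.s i w)]
    exact q.s_comm (Or.inl (by omega)) w)

/-- (`d ≥ 30` is a consequence of `hd`) -/
theorem typ [Finite V] [Nonempty V] (q : S.Quo V) (hd : Nat.card V + 29 ≤ S.d) :
    (∀ i, 2 ≤ i → i + 2 ≤ S.d → ∀ x, S.per i x = 3) ∧
    (∀ i, 2 ≤ i → i + 1 ≤ S.d → ∀ v, q.s i v = q.s 2 v) ∧
    ((∀ x, S.per 1 x = 3) ∧ (∀ v, q.s 1 v = q.s 2 v) ∨ ∀ x, S.per 1 x = 4) ∧
    ((∀ x, S.per (S.d - 1) x = 3) ∧ (∀ v, q.s S.d v = q.s 2 v) ∨ ∀ x, S.per (S.d - 1) x = 4) := by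
  have hcst := KS.core_sharp S q hd
  have hV : 0 < Nat.card V := Nat.card_pos
  obtain ⟨v0⟩ := ‹Nonempty V›
  obtain ⟨x0, -⟩ := q.surj v0
  -- the periods
  have hstr : ∀ a, 1 ≤ a → a + 4 ≤ S.d → S.per (a + 1) x0 = 3 ∧ S.per (a + 2) x0 = 3 ∧
      S.per a x0 ≤ 4 ∧ S.per (a + 3) x0 ≤ 4 := by
    intro a ha hb
    have h := S.string ha hb Set.univ ⟨x0, Set.mem_univ _⟩ (fun _ _ _ _ _ => Set.mem_univ _)
      (fun i => S.per (a + i) x0) (fun i x _ => hcst (a + i) (by omega) (by
        have := i.2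
        omega) x x0)
    exact h
  have hper : ∀ i, 2 ≤ i → i + 2 ≤ S.d → ∀ x, S.per i x = 3 := by
    intro i hi hi' x
    rw [hcst i (by omega) (by omega) x x0]
    by_cases h : i + 3 ≤ S.d
    · have h1 := (hstr (i - 1) (by omega) (by omega)).1
      rwa [show i - 1 + 1 = i by omega] at h1
    · have h1 := (hstr (i - 2) (by omega) (by omega)).2.1
      rwa [show i - 2 + 2 = i by omega] at h1
  have hp1 : ∀ x, S.per 1 x ≤ 4 := fun x => by
    rw [hcst 1 le_rfl (by omega) x x0]
    exact (hstr 1 le_rfl (by omega)).2.2.1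
  have hpd : ∀ x, S.per (S.d - 1) x ≤ 4 := fun x => by
    rw [hcst (S.d - 1) (by omega) (by omega) x x0]
    have h1 := (hstr (S.d - 4) (by omega) (by omega)).2.2.2
    rwa [show S.d - 4 + 3 = S.d - 1 by omega] at h1
  -- the block spreads
  obtain ⟨a, b, hB⟩ := KS.exists_block_sharp q hd
  have hpos := hB.pos
  have hlen := hB.len
  have hle := hB.le
  have h0 : ∀ v, q.s (a + 1) v = q.s (a + 1 + 1) v := fun v => by
    rw [hB.eq (a + 1) (by omega) (by omega), hB.eq (a + 1 + 1) (by omega) (by omega)]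
  have hR : ∀ n, a + 1 + n + 2 ≤ S.d → ∀ v, q.s (a + 1 + n) v = q.s (a + 1 + n + 1) v := by
    intro n
    induction n with
    | zero => exact fun _ => h0
    | succ n ih =>
      intro hn
      exact step_right q (ih (by omega)) (hper (a + 1 + n + 1) (by omega) (by omega))
  have hL : ∀ n, n + 1 ≤ a → ∀ v, q.s (a + 1 - n) v = q.s (a + 1 - n + 1) v := by
    intro n
    induction n with
    | zero => exact fun _ => h0
    | succ n ih =>
      intro hn
      obtain ⟨c, hc⟩ : ∃ c, a + 1 - n = c + 1 := ⟨a - n, by omega⟩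
      have h1 := ih (by omega)
      rw [hc] at h1
      have h2 := step_left q h1 (hper c (by omega) (by omega))
      rwa [show a + 1 - (n + 1) = c by omega]
  have hP : ∀ i, 2 ≤ i → i + 2 ≤ S.d → ∀ v, q.s i v = q.s (i + 1) v := by
    intro i hi hi'
    by_cases h : a + 1 ≤ i
    · obtain ⟨n, rfl⟩ := Nat.exists_eq_add_of_le h
      exact hR n hi'
    · have h1 := hL (a + 1 - i) (by omega)
      rwa [show a + 1 - (a + 1 - i) = i by omega] at h1
  have hall : ∀ n, 2 + n + 1 ≤ S.d → ∀ v, q.s (2 + n) v = q.s 2 v := by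
    intro n
    induction n with
    | zero => exact fun _ _ => rfl
    | succ n ih =>
      intro hn v
      rw [← ih (by omega) v]
      exact (hP (2 + n) (by omega) (by omega) v).symm
  have hall' : ∀ i, 2 ≤ i → i + 1 ≤ S.d → ∀ v, q.s i v = q.s 2 v := by
    intro i hi hi'
    obtain ⟨n, rfl⟩ := Nat.exists_eq_add_of_le hi
    exact hall n hi'
  refine ⟨hper, hall', ?_, ?_⟩
  · by_cases h : S.per 1 x0 = 3
    · have h3 : ∀ x, S.per 1 x = 3 := fun x => by rw [hcst 1 le_rfl (by omega) x x0, h]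
      exact Or.inl ⟨h3, step_left q (hP 2 le_rfl (by omega)) h3⟩
    · right
      intro x
      have h1 := S.three_le_per (i := 1) le_rfl (by omega) x0
      have h2 := hp1 x
      rw [hcst 1 le_rfl (by omega) x x0] at h2 ⊢
      omega
  · by_cases h : S.per (S.d - 1) x0 = 3
    · have h3 : ∀ x, S.per (S.d - 1) x = 3 := fun x => by
        rw [hcst (S.d - 1) (by omega) (by omega) x x0, h]
      refine Or.inl ⟨h3, fun v => ?_⟩
      obtain ⟨c, hc⟩ : ∃ c, S.d = c + 1 + 1 := ⟨S.d - 2, by omega⟩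
      have h4 := hP c (by omega) (by omega)
      have h5 := step_right q h4 (by
        intro x
        have := h3 x
        rwa [show S.d - 1 = c + 1 by omega] at this)
      rw [hc, ← h5 v]
      exact hall' (c + 1) (by omega) (by omega) v
    · right
      intro x
      have h1 := S.three_le_per (i := S.d - 1) (by omega) (by omega) x0
      have h2 := hpd x
      rw [hcst (S.d - 1) (by omega) (by omega) x x0] at h2 ⊢
      omega

end Pool.Agent.H11.GK
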