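import Pool.Agent.H11.GK.ExpF
import Pool.Agent.H73.TO.Lat2

/-!
# Module VertX: vertices

* `atom_point`: `P.rk A = 1`. `A` is nonempty (`≠ P.bot`, whose rank is `0`, `bot_eq`). If `x ≠ y` in `A` take a continuous linear `l` with `l x < l y` (`fun z => ⟪y - x, z⟫`). `A' = {z ∈ A | l maximal}` is a
  face (`exposed_sub`), nonempty (`A` is compact), `A' ⊆ A`, `x ∉ A'`: so `A' < A`, rank `0`, `A' = P.bot` (`PolyLat.eq_of_le`), empty: contradiction.
* `face_hull`: `⊇`: `v A ∈ A ⊆ F`, `F` convex. `⊆`: let `x ∈ F` not in the hull `C` (compact: a finite set; closed, convex). Separation (`geometric_hahn_banach_point_closed` or similar): a continuous linear `l` with `l y < l x` for all `y ∈ C`.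
  `F' = {z ∈ F | l maximal}` is a nonempty face `≤ F` (`exposed_sub`), so it has rank `≥ 1` and contains an atom `A` (`H73.TO.exists_atom`): `v A ∈ F'`, `l (v A) ≥ l x > l (v A)` (`v A ∈ C`).
  (If there is no atom below `F` then `C = ∅` and the separation is trivial: any `l`, e.g. `0`, works.)
-/

set_option autoImplicit false

namespace Pool.Agent.H11.GK

open H63.KO KOrbit

variable {d : ℕ} {Q : Set (Euc d)}

private theorem vertx_nonempty (P : PolyLat (Face Q)) {A : Face Q} (hA : 1 ≤ P.rk A) :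
    (A : Set (Euc d)).Nonempty := by
  rw [Set.nonempty_iff_ne_empty]
  intro h
  have h1 : A = P.bot := Subtype.ext (h.trans (bot_eq P).symm)
  rw [h1, P.rk_bot] at hA
  omega

/-- the face of `F` where `l` is maximal -/
private theorem vertx_face (hQ : IsPolytope Q) (P : PolyLat (Face Q)) {F : Face Q} (hF : 1 ≤ P.rk F)
    (l : Euc d →L[ℝ] ℝ) : ∃ F' : Face Q, F' ≤ F ∧ 1 ≤ P.rk F' ∧
      ∀ z ∈ (F' : Set (Euc d)), ∀ w ∈ (F : Set (Euc d)), l w ≤ l z := by
  obtain ⟨z, hz, hz'⟩ := (face_compact hQ F).1.exists_isMaxOn (vertx_nonempty P hF) l.continuous.continuousOn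
  refine ⟨⟨{x | x ∈ (F : Set (Euc d)) ∧ ∀ y ∈ (F : Set (Euc d)), l y ≤ l x}, exposed_sub hQ F.2 l⟩,
    le_iff.2 fun x hx => hx.1, ?_, fun z hz w hw => hz.2 w hw⟩
  by_contra h
  rw [Nat.not_le, Nat.lt_one_iff] at h
  have h1 := PolyLat.eq_of_le (P := P) (P.bot_le _) (P.rk_bot.trans h.symm)
  have h2 := bot_eq P
  rw [h1] at h2
  have h3 : z ∈ ({x | x ∈ (F : Set (Euc d)) ∧ ∀ y ∈ (F : Set (Euc d)), l y ≤ l x} : Set (Euc d)) :=
    ⟨hz, fun y hy => hz' hy⟩
  exact (Set.eq_empty_iff_forall_notMem.1 h2) z h3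

theorem atom_point (hQ : IsPolytope Q) (P : PolyLat (Face Q)) {A : Face Q} (hA : P.rk A = 1) :
    ∃ x : Euc d, (A : Set (Euc d)) = {x} := by
  obtain ⟨x, hx⟩ := vertx_nonempty P hA.ge
  refine ⟨x, Set.eq_singleton_iff_unique_mem.2 ⟨hx, fun y hy => ?_⟩⟩
  by_contra hne
  obtain ⟨A', hle, hr, hmax⟩ := vertx_face hQ P hA.ge (innerSL ℝ (y - x))
  have h1 : A' = A := by
    refine PolyLat.eq_of_le (P := P) hle ?_
    have h2 := PolyLat.rk_le (P := P) hle
    omega
  rw [h1] at hmax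
  have h3 := hmax x hx y hy
  rw [innerSL_apply_apply, innerSL_apply_apply] at h3
  have h4 : inner ℝ (y - x) (y - x) ≤ 0 := by
    rw [inner_sub_right]
    linarith
  have h5 : y - x = 0 := by
    rw [real_inner_self_eq_norm_sq] at h4
    have h6 : ‖y - x‖ = 0 := by nlinarith [norm_nonneg (y - x)]
    exact norm_eq_zero.1 h6
  exact hne (sub_eq_zero.1 h5)

theorem face_hull [Finite (Face Q)] (hQ : IsPolytope Q) (P : PolyLat (Face Q)) {v : Face Q → Euc d}
    (hv : ∀ A, P.rk A = 1 → (A : Set (Euc d)) = {v A}) (F : Face Q) :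
    (F : Set (Euc d)) = convexHull ℝ (v '' {A | P.rk A = 1 ∧ A ≤ F}) := by
  have hmem : ∀ A, P.rk A = 1 → v A ∈ (A : Set (Euc d)) := by
    intro A hA
    rw [hv A hA]
    rfl
  refine Set.Subset.antisymm ?_ ?_
  · intro x hx
    by_contra hxC
    have hfin : (v '' {A | P.rk A = 1 ∧ A ≤ F}).Finite := (Set.toFinite _).image v
    have hcl : IsClosed (convexHull ℝ (v '' {A | P.rk A = 1 ∧ A ≤ F})) :=
      (Set.Finite.isCompact_convexHull (𝕜 := ℝ) hfin).isClosed
    obtain ⟨l, u, hl, hu⟩ := geometric_hahn_banach_closed_point (convex_convexHull ℝ _) hcl hxC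
    have hF : 1 ≤ P.rk F := by
      by_contra h
      rw [Nat.not_le, Nat.lt_one_iff] at h
      have h1 := PolyLat.eq_of_le (P := P) (P.bot_le F) (P.rk_bot.trans h.symm)
      have h2 := bot_eq P
      rw [h1] at h2
      exact (Set.eq_empty_iff_forall_notMem.1 h2) x hx
    obtain ⟨F', hle, hr, hmax⟩ := vertx_face hQ P hF l
    obtain ⟨A, hA, hA1⟩ := H73.TO.exists_atom P hr
    have h1 := hmax (v A) (le_iff.1 hA (hmem A hA1)) x hx
    have h2 := hl (v A) (subset_convexHull ℝ _ ⟨A, ⟨hA1, hA.trans hle⟩, rfl⟩)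
    linarith
  · refine convexHull_min ?_ (face_compact hQ F).2
    rintro _ ⟨A, ⟨hA1, hA⟩, rfl⟩
    exact le_iff.1 hA (hmem A hA1)

end Pool.Agent.H11.GK
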